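import Pool.Agent.Lib.MP_55c57e_al.Defs

set_option autoImplicit false

noncomputable section

namespace Pool.CB55c57e

open MvPolynomial

variable {Λ : Type} [CommRing Λ]

section swLemmas

variable (h : Λ) (n m : ℤ × ℤ)

@[simp] lemma sw_sw (p : Pol Λ) : sw (sw p) = p := by
  have : (sw : Pol Λ →ₐ[Λ] Pol Λ).comp sw = AlgHom.id Λ (Pol Λ) := by
    apply MvPolynomial.algHom_ext
    intro i
    fin_cases i <;> simp
  exact DFunLike.congr_fun this p

lemma sw_sh (p : Pol Λ) : sw (sh h n p) = sh h n.swap (sw p) := by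
  have : (sw : Pol Λ →ₐ[Λ] Pol Λ).comp (sh h n) = (sh h n.swap).comp sw := by
    apply MvPolynomial.algHom_ext
    intro i
    fin_cases i <;> simp
  exact DFunLike.congr_fun this p

lemma den_le_sw : Den h ≤ (Den h).comap (sw : Pol Λ →ₐ[Λ] Pol Λ).toRingHom := by
  rw [Den, Submonoid.closure_le]
  rintro p ⟨j, rfl | rfl⟩
  · apply Submonoid.subset_closure
    exact ⟨j, Or.inr (by simp)⟩
  · apply Submonoid.subset_closure
    exact ⟨j, Or.inl (by simp)⟩

end swLemmas

/-- The exchange `u_1 ↔ u_2` of rational functions. -/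
def swl (h : Λ) : Loc h →+* Loc h :=
  IsLocalization.map (Loc h) (sw : Pol Λ →ₐ[Λ] Pol Λ).toRingHom (den_le_sw h)

@[simp] lemma swl_io (h : Λ) (p : Pol Λ) : swl h (io h p) = io h (sw p) :=
  IsLocalization.map_eq (den_le_sw h) p

@[simp] lemma swl_swl (h : Λ) (a : Loc h) : swl h (swl h a) = a := by
  have : (swl h).comp (swl h) = RingHom.id (Loc h) :=
    loc_hom_ext h (fun p => by simp)
  exact DFunLike.congr_fun this a

lemma swl_tau (h : Λ) (n : ℤ × ℤ) (a : Loc h) :
    swl h (tau h n a) = tau h n.swap (swl h a) := by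
  have : (swl h).comp (tau h n) = (tau h n.swap).comp (swl h) :=
    loc_hom_ext h (fun p => by simp [sw_sh])
  exact DFunLike.congr_fun this a

lemma smul_def (h : Λ) (n : ℤ × ℤ) (a : Loc h) : Multiplicative.ofAdd n • a = tau h n a := rfl

lemma y_mul (h : Λ) (n m : ℤ × ℤ) (c d : Loc h) :
    y h n c * y h m d = y h (n + m) (c * tau h n d) := by
  rw [y, y, y]
  exact SkewMonoidAlgebra.single_mul_single ..

lemma y_add (h : Λ) (n : ℤ × ℤ) (c d : Loc h) : y h n (c + d) = y h n c + y h n d :=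
  SkewMonoidAlgebra.single_add _ _ _

lemma y_one (h : Λ) : y h 0 1 = 1 := rfl

end Pool.CB55c57e
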