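import Mathlib

/-!
# The Cartan subquotient for one vertex, `g` loops, `v = 2`, framing `w`

`Par g w` is the ring `ℂ[𝔥_X, ħ]`; `Diff h` is the ring of difference operators in two variables
`u_1, u_2` with step `h`; the quantized Coulomb branch is `algOf h S`, the ring generated by the
symmetric polynomials and the dressed minuscule monopole operators `S = monopoles h m z`, and
`CartanSub g w ν` is `A_0 / ∑_{n > 0} A_{-n} A_n` for the grading given by the cocharacter `ν`.
-/

set_option autoImplicit false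

noncomputable section

namespace Pool.CB55c57e

open MvPolynomial

/-! ### Difference operators -/

/-- The polynomial ring in the two Cartan variables `u_1 = X 0`, `u_2 = X 1`, over a parameter
ring. -/
abbrev Pol (Λ : Type) [CommRing Λ] : Type := MvPolynomial (Fin 2) Λ

variable {Λ : Type} [CommRing Λ]

/-- The translation `u_1 ↦ u_1 + n_1 h`, `u_2 ↦ u_2 + n_2 h` of polynomials. -/
def sh (h : Λ) (n : ℤ × ℤ) : Pol Λ →ₐ[Λ] Pol Λ :=
  aeval ![X 0 + C ((n.1 : Λ) * h), X 1 + C ((n.2 : Λ) * h)]

/-- The exchange `u_1 ↔ u_2` of polynomials. -/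
def sw : Pol Λ →ₐ[Λ] Pol Λ := aeval ![X 1, X 0]

/-- The linear forms `u_1 - u_2 - j h` and `u_2 - u_1 - j h`, `j` an integer. -/
def gens (h : Λ) : Set (Pol Λ) :=
  {p | ∃ j : ℤ, p = X 0 - X 1 - C ((j : Λ) * h) ∨ p = X 1 - X 0 - C ((j : Λ) * h)}

/-- The multiplicative set of the products of these linear forms. -/
def Den (h : Λ) : Submonoid (Pol Λ) := Submonoid.closure (gens h)

/-- The ring of fractions with numerator in `Λ[u_1, u_2]` and denominator in `Den h`. -/
abbrev Loc (h : Λ) : Type := Localization (Den h)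

instance locRing (h : Λ) : CommRing (Loc h) := OreLocalization.instCommRing

instance locAlgebra (h : Λ) : Algebra Λ (Loc h) := OreLocalization.instAlgebra

section simpLemmas

variable (h : Λ) (n m : ℤ × ℤ)

@[simp] lemma sh_X0 : sh h n (X 0) = X 0 + C ((n.1 : Λ) * h) := by simp [sh]
@[simp] lemma sh_X1 : sh h n (X 1) = X 1 + C ((n.2 : Λ) * h) := by simp [sh]
@[simp] lemma sh_C (c : Λ) : sh h n (C c) = C c := by simp [sh]
@[simp] lemma sw_X0 : (sw : Pol Λ →ₐ[Λ] Pol Λ) (X 0) = X 1 := by simp [sw]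
@[simp] lemma sw_X1 : (sw : Pol Λ →ₐ[Λ] Pol Λ) (X 1) = X 0 := by simp [sw]
@[simp] lemma sw_C (c : Λ) : (sw : Pol Λ →ₐ[Λ] Pol Λ) (C c) = C c := by simp [sw]

lemma sh_zero (p : Pol Λ) : sh h 0 p = p := by
  have : sh h 0 = AlgHom.id Λ (Pol Λ) := by
    apply MvPolynomial.algHom_ext
    intro i
    fin_cases i <;> simp
  rw [this]; rfl

lemma sh_sh (p : Pol Λ) : sh h n (sh h m p) = sh h (n + m) p := by
  have : (sh h n).comp (sh h m) = sh h (n + m) := by
    apply MvPolynomial.algHom_ext
    intro i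
    fin_cases i <;> simp <;> ring_nf
  rw [← this]; rfl

lemma den_le_sh : Den h ≤ (Den h).comap (sh h n).toRingHom := by
  rw [Den, Submonoid.closure_le]
  rintro p ⟨j, rfl | rfl⟩
  · apply Submonoid.subset_closure
    refine ⟨j - n.1 + n.2, Or.inl ?_⟩
    simp only [AlgHom.toRingHom_eq_coe, RingHom.coe_coe, map_sub, sh_X0, sh_X1, sh_C]
    push_cast
    simp only [sub_mul, add_mul, C_add, C_sub]
    ring
  · apply Submonoid.subset_closure
    refine ⟨j - n.2 + n.1, Or.inr ?_⟩
    simp only [AlgHom.toRingHom_eq_coe, RingHom.coe_coe, map_sub, sh_X0, sh_X1, sh_C]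
    push_cast
    simp only [sub_mul, add_mul, C_add, C_sub]
    ring

lemma mem_den (j : ℤ) : X 0 - X 1 - C ((j : Λ) * h) ∈ Den h :=
  Submonoid.subset_closure ⟨j, Or.inl rfl⟩

end simpLemmas

/-- The translation by `n h` of rational functions. -/
def tau (h : Λ) (n : ℤ × ℤ) : Loc h →+* Loc h :=
  IsLocalization.map (Loc h) (sh h n).toRingHom (den_le_sh h n)

/-- A polynomial as a rational function. -/
def io (h : Λ) : Pol Λ →+* Loc h := algebraMap (Pol Λ) (Loc h)

/-- The rational function `1 / (u_1 - u_2 - j h)`. -/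
def xi (h : Λ) (j : ℤ) : Loc h :=
  IsLocalization.mk' (Loc h) (1 : Pol Λ) ⟨X 0 - X 1 - C ((j : Λ) * h), mem_den h j⟩

@[simp] lemma tau_io (h : Λ) (n : ℤ × ℤ) (p : Pol Λ) : tau h n (io h p) = io h (sh h n p) :=
  IsLocalization.map_eq (den_le_sh h n) p

lemma loc_hom_ext {R : Type} [CommRing R] (h : Λ) {f g : Loc h →+* R}
    (H : ∀ p, f (io h p) = g (io h p)) : f = g := by
  apply IsLocalization.ringHom_ext (Den h)
  ext p <;> exact H _

lemma tau_zero (h : Λ) (a : Loc h) : tau h 0 a = a := by
  have : tau h 0 = RingHom.id (Loc h) := loc_hom_ext h (fun p => by simp [sh_zero])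
  rw [this]; rfl

lemma tau_tau (h : Λ) (n m : ℤ × ℤ) (a : Loc h) : tau h n (tau h m a) = tau h (n + m) a := by
  have : (tau h n).comp (tau h m) = tau h (n + m) :=
    loc_hom_ext h (fun p => by simp [sh_sh])
  exact DFunLike.congr_fun this a

/-- The group `ℤ × ℤ` acts on rational functions by translations. -/
instance (h : Λ) : MulSemiringAction (Multiplicative (ℤ × ℤ)) (Loc h) where
  smul n a := tau h n.toAdd a
  one_smul a := tau_zero h a
  mul_smul n m a := (tau_tau h n.toAdd m.toAdd a).symm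
  smul_zero n := map_zero (tau h n.toAdd)
  smul_add n := map_add (tau h n.toAdd)
  smul_one n := map_one (tau h n.toAdd)
  smul_mul n := map_mul (tau h n.toAdd)

/-- Difference operators: finite sums of terms `c y^n`, where `c` is a rational function and
`y^n` translates by `n h`; the product is `(c y^n) (d y^m) = c (y^n d) y^(n + m)`. -/
abbrev Diff (h : Λ) : Type := SkewMonoidAlgebra (Loc h) (Multiplicative (ℤ × ℤ))

instance diffRing (h : Λ) : Ring (Diff h) :=
  inferInstanceAs (Ring (SkewMonoidAlgebra (Loc h) (Multiplicative (ℤ × ℤ))))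

instance diffAddCommGroup (h : Λ) : AddCommGroup (Diff h) := inferInstance

instance diffModule (h : Λ) : Module Λ (Diff h) := inferInstance

/-- The difference operator `c y^n`. -/
def y (h : Λ) (n : ℤ × ℤ) (c : Loc h) : Diff h :=
  SkewMonoidAlgebra.single (Multiplicative.ofAdd n) c

/-- Multiplication by a polynomial. -/
def sy (h : Λ) (p : Pol Λ) : Diff h := y h 0 (io h p)

/-! ### The algebra generated by a set of operators, its grading and its Cartan subquotient -/

/-- The operators of multiplication by a symmetric polynomial. -/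
def symSet (h : Λ) : Set (Diff h) := {a | ∃ p : Pol Λ, sw p = p ∧ a = sy h p}

/-- The ring of difference operators generated by the symmetric polynomials and a set `S`. -/
def algOf (h : Λ) (S : Set (Diff h)) : Subring (Diff h) := Subring.closure (symSet h ∪ S)

lemma smul_eq (h : Λ) (r : Λ) (a : Diff h) : r • a = sy h (C r) * a := by
  ext l
  rw [SkewMonoidAlgebra.coeff_smul, Finsupp.smul_apply]
  have : (sy h (C r) * a).coeff l = io h (C r) * a.coeff l :=
    SkewMonoidAlgebra.coeff_single_one_mul a (io h (C r)) l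
  rw [this, Algebra.smul_def, IsScalarTower.algebraMap_apply Λ (Pol Λ) (Loc h)]
  rfl

lemma sy_mem (h : Λ) (S : Set (Diff h)) (p : Pol Λ) (hp : sw p = p) : sy h p ∈ algOf h S :=
  Subring.subset_closure (Or.inl ⟨p, hp, rfl⟩)

/-- The elements of degree `n` of the ring generated by symmetric polynomials and `S`: the degree
of `y^l` is `c (l_1 + l_2)`. -/
def part (h : Λ) (S : Set (Diff h)) (c n : ℤ) : Submodule Λ (Diff h) where
  carrier := {a | a ∈ algOf h S ∧ ∀ l : Multiplicative (ℤ × ℤ), a.coeff l ≠ 0 →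
    c * (l.toAdd.1 + l.toAdd.2) = n}
  add_mem' := by
    rintro a b ⟨ha, ha'⟩ ⟨hb, hb'⟩
    refine ⟨add_mem ha hb, fun l hl => ?_⟩
    rw [SkewMonoidAlgebra.coeff_add, Finsupp.add_apply] at hl
    by_cases h1 : a.coeff l = 0
    · exact hb' l (by simpa [h1] using hl)
    · exact ha' l h1
  zero_mem' := ⟨zero_mem _, fun l hl => absurd (by simp) hl⟩
  smul_mem' := by
    rintro r a ⟨ha, ha'⟩
    refine ⟨?_, fun l hl => ?_⟩
    · rw [smul_eq]
      exact mul_mem (sy_mem h S _ (by simp)) ha
    · refine ha' l (fun h0 => hl ?_)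
      rw [SkewMonoidAlgebra.coeff_smul, Finsupp.smul_apply, h0, smul_zero]

/-- The two-sided ideal `∑_{n > 0} A_{-n} A_n` of `A_0`. -/
def idl (h : Λ) (S : Set (Diff h)) (c : ℤ) : Submodule Λ (Diff h) :=
  Submodule.span Λ {x | ∃ n : ℤ, 0 < n ∧ ∃ F ∈ part h S c (-n), ∃ E ∈ part h S c n, x = F * E}

/-- The ideal `idl`, as a submodule of `A_0`. -/
def idl0 (h : Λ) (S : Set (Diff h)) (c : ℤ) : Submodule Λ (part h S c 0) :=
  (idl h S c).submoduleOf (part h S c 0)

/-- The Cartan subquotient `A_0 / ∑_{n > 0} A_{-n} A_n`. -/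
abbrev Cartan (h : Λ) (S : Set (Diff h)) (c : ℤ) : Type := part h S c 0 ⧸ idl0 h S c

instance cartanGroup (h : Λ) (S : Set (Diff h)) (c : ℤ) : AddCommGroup (Cartan h S c) :=
  Submodule.Quotient.addCommGroup (idl0 h S c)

instance cartanModule (h : Λ) (S : Set (Diff h)) (c : ℤ) : Module Λ (Cartan h S c) :=
  Submodule.Quotient.module (idl0 h S c)

/-! ### The monopole operators -/

variable {g w : ℕ}

/-- `∏_i (a + m_i)`. -/
def lin {n : ℕ} (m : Fin n → Λ) (a : Pol Λ) : Pol Λ := ∏ i, (a + C (m i))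

/-- The rational function `p / (u_1 - u_2)`. -/
def ov (h : Λ) (p : Pol Λ) : Loc h := io h p * xi h 0

/-- The dressed minuscule monopole operator of charge `(1, 0)` and dressing `f`, for loops of
masses `m`:
`f ∏ (u_2 - u_1 + m_l) / (u_2 - u_1) y_1 + (u_1 ↔ u_2)`. -/
def opE (h : Λ) (m : Fin g → Λ) (f : Pol Λ) : Diff h :=
  y h (1, 0) (-ov h (f * lin m (X 1 - X 0))) + y h (0, 1) (ov h (sw f * lin m (X 0 - X 1)))

/-- The dressed minuscule monopole operator of charge `(-1, 0)` and dressing `f`, for loops of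
masses `m` and framings of masses `z`:
`f ∏ (u_1 + z_k) ∏ (u_1 - u_2 + m_l) / (u_1 - u_2) y_1⁻¹ + (u_1 ↔ u_2)`. -/
def opF (h : Λ) (m : Fin g → Λ) (z : Fin w → Λ) (f : Pol Λ) : Diff h :=
  y h (-1, 0) (ov h (f * lin z (X 0) * lin m (X 0 - X 1)))
    + y h (0, -1) (-ov h (sw f * lin z (X 1) * lin m (X 1 - X 0)))

/-- The minuscule monopole operator of charge `(1, 1)`. -/
def opDp (h : Λ) : Diff h := y h (1, 1) 1

/-- The minuscule monopole operator of charge `(-1, -1)`. -/
def opDm (h : Λ) (z : Fin w → Λ) : Diff h := y h (-1, -1) (io h (lin z (X 0) * lin z (X 1)))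

/-- The dressed minuscule monopole operators. -/
def monopoles (h : Λ) (m : Fin g → Λ) (z : Fin w → Λ) : Set (Diff h) :=
  Set.range (opE h m) ∪ Set.range (opF h m z) ∪ {opDp h, opDm h z}

/-! ### The parameters -/

/-- The ring `ℂ[𝔥_X, ħ]` for `G = GL(2)` and the quiver with one vertex, `g` loops and `w`
framings: variables `ħ`, the masses `m_1, ..., m_g` of the traceless parts of the loops, the
masses of their trace parts (which do not enter the algebra), and the masses
`z_1, ..., z_(w-1)` of the framings; the last framing has mass `0`, since the flavour torus is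
taken modulo the scalars of the gauge group. -/
abbrev Par (g w : ℕ) : Type := MvPolynomial (Option (Fin g ⊕ Fin g ⊕ Fin (w - 1))) ℂ

/-- The loop rotation parameter `ħ`. -/
def hb (g w : ℕ) : Par g w := X none

/-- The mass of a loop. -/
def mass (g w : ℕ) (l : Fin g) : Par g w := X (some (Sum.inl l))

/-- The mass of a framing; the last one is `0`. -/
def fram (g w : ℕ) (k : Fin w) : Par g w :=
  if hk : (k : ℕ) < w - 1 then X (some (Sum.inr (Sum.inr ⟨k, hk⟩))) else 0

/-- The Cartan subquotient `A_0 / ∑_{n > 0} A_{-n} A_n` for the quiver with one vertex and `g`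
loops, `v = 2`, framing `w` and cocharacter `ν`. -/
def CartanSub (g w : ℕ) (ν : ℤ) : Type :=
  Cartan (hb g w) (monopoles (hb g w) (mass g w) (fram g w)) ν

instance cartanSubGroup (g w : ℕ) (ν : ℤ) : AddCommGroup (CartanSub g w ν) :=
  cartanGroup (hb g w) (monopoles (hb g w) (mass g w) (fram g w)) ν

instance cartanSubModule (g w : ℕ) (ν : ℤ) : Module (Par g w) (CartanSub g w ν) :=
  cartanModule (hb g w) (monopoles (hb g w) (mass g w) (fram g w)) ν

end Pool.CB55c57e
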