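import Pool.Agent.Lib.MP_55c57e_al.Tri

set_option autoImplicit false

noncomputable section

namespace Pool.CB55c57e

open MvPolynomial

variable {Λ : Type} [CommRing Λ] {h : Λ} {K : Type} [Field K]

/-- Coefficients which leave the set `X` vanish at the base point. -/
def Leave (ev : Loc h →+* K) (X : Set (ℤ × ℤ)) (a : Diff h) : Prop :=
  ∀ v ∈ X, ∀ l : Multiplicative (ℤ × ℤ), v + l.toAdd ∉ X → ev (tau h v (a.coeff l)) = 0

variable {ev : Loc h →+* K} {X : Set (ℤ × ℤ)}

lemma leave_add {a b : Diff h} (ha : Leave ev X a) (hb : Leave ev X b) : Leave ev X (a + b) := by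
  intro v hv l hl
  rw [SkewMonoidAlgebra.coeff_add, Finsupp.add_apply, map_add, map_add, ha v hv l hl,
    hb v hv l hl, add_zero]

lemma leave_zero : Leave ev X (0 : Diff h) := by
  intro v hv l hl
  rw [SkewMonoidAlgebra.coeff_zero, Finsupp.coe_zero, Pi.zero_apply, map_zero, map_zero]

lemma leave_neg {a : Diff h} (ha : Leave ev X a) : Leave ev X (-a) := by
  intro v hv l hl
  rw [SkewMonoidAlgebra.coeff_neg, Finsupp.neg_apply, map_neg, map_neg, ha v hv l hl, neg_zero]

lemma leave_y {n : ℤ × ℤ} {c : Loc h} (H : ∀ v ∈ X, v + n ∉ X → ev (tau h v c) = 0) :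
    Leave ev X (y h n c) := by
  classical
  intro v hv l hl
  rw [y, SkewMonoidAlgebra.coeff_single_apply]
  split_ifs with h1
  · subst h1
    exact H v hv hl
  · rw [map_zero, map_zero]

lemma leave_mul {a b : Diff h} (ha : Leave ev X a) (hb : Leave ev X b) : Leave ev X (a * b) := by
  classical
  intro v hv l hl
  rw [SkewMonoidAlgebra.coeff_mul, SkewMonoidAlgebra.sum_def', map_sum, map_sum]
  apply Finset.sum_eq_zero
  intro l1 _
  rw [SkewMonoidAlgebra.sum_def', map_sum, map_sum]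
  apply Finset.sum_eq_zero
  intro l2 _
  split_ifs with h1
  · have h2 : (l1 • b.coeff l2 : Loc h) = tau h l1.toAdd (b.coeff l2) := rfl
    rw [h2, map_mul, map_mul, tau_tau]
    by_cases h3 : v + l1.toAdd ∈ X
    · rw [hb (v + l1.toAdd) h3 l2, mul_zero]
      rw [add_assoc, ← toAdd_mul, h1]
      exact hl
    · rw [ha v hv l1 h3, zero_mul]
  · rw [map_zero, map_zero]

lemma leave_sy (p : Pol Λ) : Leave ev X (sy h p) := by
  apply leave_y
  intro v hv hv'
  rw [add_zero] at hv'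
  exact absurd hv hv'

lemma leave_alg {S : Set (Diff h)} (hS : ∀ a ∈ S, Leave ev X a) {a : Diff h}
    (ha : a ∈ algOf h S) : Leave ev X a := by
  induction ha using Subring.closure_induction with
  | mem x hx =>
    rcases hx with ⟨p, _, rfl⟩ | hx
    · exact leave_sy p
    · exact hS x hx
  | zero => exact leave_zero
  | one =>
    have : (1 : Diff h) = sy h 1 := by rw [sy, map_one, y_one]
    rw [this]
    exact leave_sy 1
  | add x z _ _ hx hz => exact leave_add hx hz
  | neg x _ hx => exact leave_neg hx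
  | mul x z _ _ hx hz => exact leave_mul hx hz

section gens

variable (e : ℤ) (q Zp Zm : Polynomial Λ)

/-- Reduction of the vanishing conditions to the four coefficients. -/
lemma leave_gset
    (H1 : ∀ v ∈ X, v + e • (1, 0) ∉ X → ev (tau h v (al h q Zp)) = 0)
    (H2 : ∀ v ∈ X, v + e • (0, 1) ∉ X → ev (tau h v (swl h (al h q Zp))) = 0)
    (H3 : ∀ v ∈ X, v + e • (-1, 0) ∉ X → ev (tau h v (be h q Zm)) = 0)
    (H4 : ∀ v ∈ X, v + e • (0, -1) ∉ X → ev (tau h v (swl h (be h q Zm))) = 0)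
    (H5 : ∀ v ∈ X, v + e • (1, 1) ∉ X →
      ev (tau h v (io h (pe Zp (MvPolynomial.X 0) * pe Zp (MvPolynomial.X 1)))) = 0)
    (H6 : ∀ v ∈ X, v + e • (-1, -1) ∉ X →
      ev (tau h v (io h (pe Zm (MvPolynomial.X 0) * pe Zm (MvPolynomial.X 1)))) = 0) :
    ∀ a ∈ gset h e q Zp Zm, Leave ev X a := by
  rintro a ((⟨f, rfl⟩ | ⟨f, rfl⟩) | ha)
  · rw [raise, op]
    apply leave_add
    · apply leave_y
      intro v hv hv'
      rw [map_mul, map_mul, H1 v hv hv', mul_zero]
    · apply leave_y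
      intro v hv hv'
      rw [map_mul (swl h), map_mul, map_mul, H2 v hv hv', mul_zero]
  · rw [lower, op]
    apply leave_add
    · apply leave_y
      intro v hv hv'
      rw [map_mul, map_mul, H3 v hv hv', mul_zero]
    · apply leave_y
      intro v hv hv'
      rw [map_mul (swl h), map_mul, map_mul, H4 v hv hv', mul_zero]
  · rcases ha with ha | ha
    · subst ha
      rw [Dp]
      exact leave_y H5
    · rw [Set.mem_singleton_iff] at ha
      subst ha
      rw [Dm]
      exact leave_y H6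

/-- `ev` of the translate of a one-variable polynomial in `u_1`. -/
lemma ev_pe0 (Z : Polynomial Λ) (v : ℤ × ℤ) :
    ev (tau h v (io h (pe Z (MvPolynomial.X 0)))) =
      ev (io h (pe Z (MvPolynomial.X 0 + C ((v.1 : Λ) * h)))) := by
  rw [tau_io, sh_pe, sh_X0]

lemma ev_pe1 (Z : Polynomial Λ) (v : ℤ × ℤ) :
    ev (tau h v (io h (pe Z (MvPolynomial.X 1)))) =
      ev (io h (pe Z (MvPolynomial.X 1 + C ((v.2 : Λ) * h)))) := by
  rw [tau_io, sh_pe, sh_X1]

lemma ev_pe01 (Z : Polynomial Λ) (v : ℤ × ℤ) :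
    ev (tau h v (io h (pe Z (MvPolynomial.X 0 - MvPolynomial.X 1)))) =
      ev (io h (pe Z (MvPolynomial.X 0 - MvPolynomial.X 1 + C (((v.1 - v.2 : ℤ) : Λ) * h)))) := by
  rw [tau_io, sh_pe, map_sub, sh_X0, sh_X1]
  congr 4
  push_cast
  rw [sub_mul, C_sub]
  ring

lemma ev_pe10 (Z : Polynomial Λ) (v : ℤ × ℤ) :
    ev (tau h v (io h (pe Z (MvPolynomial.X 1 - MvPolynomial.X 0)))) =
      ev (io h (pe Z (MvPolynomial.X 1 - MvPolynomial.X 0 + C (((v.2 - v.1 : ℤ) : Λ) * h)))) := by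
  rw [tau_io, sh_pe, map_sub, sh_X0, sh_X1]
  congr 4
  push_cast
  rw [sub_mul, C_sub]
  ring

lemma ev_al (v : ℤ × ℤ) : ev (tau h v (al h q Zp)) =
    ev (io h (pe Zp (MvPolynomial.X 0 + C ((v.1 : Λ) * h)))) *
    ev (io h (pe q (MvPolynomial.X 1 - MvPolynomial.X 0 + C (((v.2 - v.1 : ℤ) : Λ) * h)))) *
    ev (tau h v (-xi h 0)) := by
  rw [al, map_mul (tau h v), map_mul (io h), map_mul (tau h v), map_mul, map_mul, ev_pe0, ev_pe10]

lemma ev_sal (v : ℤ × ℤ) : ev (tau h v (swl h (al h q Zp))) =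
    ev (io h (pe Zp (MvPolynomial.X 1 + C ((v.2 : Λ) * h)))) *
    ev (io h (pe q (MvPolynomial.X 0 - MvPolynomial.X 1 + C (((v.1 - v.2 : ℤ) : Λ) * h)))) *
    ev (tau h v (xi h 0)) := by
  rw [swl_al, map_mul (tau h v), map_mul (io h), map_mul (tau h v), map_mul, map_mul, ev_pe1,
    ev_pe01]

lemma ev_be (v : ℤ × ℤ) : ev (tau h v (be h q Zm)) =
    ev (io h (pe Zm (MvPolynomial.X 0 + C ((v.1 : Λ) * h)))) *
    ev (io h (pe q (MvPolynomial.X 0 - MvPolynomial.X 1 + C (((v.1 - v.2 : ℤ) : Λ) * h)))) *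
    ev (tau h v (xi h 0)) := by
  rw [be, map_mul (tau h v), map_mul (io h), map_mul (tau h v), map_mul, map_mul, ev_pe0, ev_pe01]

lemma swl_be : swl h (be h q Zm) = io h (pe Zm (MvPolynomial.X 1) *
    pe q (MvPolynomial.X 1 - MvPolynomial.X 0)) * (-xi h 0) := by
  rw [be, map_mul, swl_io, swl_xi]
  simp

lemma ev_sbe (v : ℤ × ℤ) : ev (tau h v (swl h (be h q Zm))) =
    ev (io h (pe Zm (MvPolynomial.X 1 + C ((v.2 : Λ) * h)))) *
    ev (io h (pe q (MvPolynomial.X 1 - MvPolynomial.X 0 + C (((v.2 - v.1 : ℤ) : Λ) * h)))) *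
    ev (tau h v (-xi h 0)) := by
  rw [swl_be, map_mul (tau h v), map_mul (io h), map_mul (tau h v), map_mul, map_mul, ev_pe1,
    ev_pe10]

lemma ev_dd (Z : Polynomial Λ) (v : ℤ × ℤ) :
    ev (tau h v (io h (pe Z (MvPolynomial.X 0) * pe Z (MvPolynomial.X 1)))) =
    ev (io h (pe Z (MvPolynomial.X 0 + C ((v.1 : Λ) * h)))) *
    ev (io h (pe Z (MvPolynomial.X 1 + C ((v.2 : Λ) * h)))) := by
  rw [map_mul (io h), map_mul (tau h v), map_mul, ev_pe0, ev_pe1]

variable {e : ℤ} {q Zp Zm : Polynomial Λ}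

lemma e_cases (he : e * e = 1) : e = 1 ∨ e = -1 := by
  have := Int.isUnit_iff.mp (IsUnit.of_mul_eq_one e he)
  exact this

lemma half1m (he : e * e = 1) (H : ev (io h (pe Zm (MvPolynomial.X 0))) = 0) :
    ∀ a ∈ gset h e q Zp Zm, Leave ev {v | 0 ≤ e * v.1} a := by
  apply leave_gset <;> rintro ⟨v1, v2⟩ hv hv' <;>
    simp only [Set.mem_ofPred_eq, Prod.smul_mk, Prod.mk_add_mk, smul_eq_mul, mul_one, mul_zero,
      mul_neg, mul_add, not_le] at hv hv'
  · omega
  · omega
  · have hv1 : v1 = 0 := by rcases e_cases he with rfl | rfl <;> omega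
    subst hv1
    rw [ev_be]
    simp only [Int.cast_zero, zero_mul, C_0, add_zero, H]
  · omega
  · omega
  · have hv1 : v1 = 0 := by rcases e_cases he with rfl | rfl <;> omega
    subst hv1
    rw [ev_dd]
    simp only [Int.cast_zero, zero_mul, C_0, add_zero, H]

lemma half1p (he : e * e = 1)
    (H : ev (io h (pe Zp (MvPolynomial.X 0 - C ((e : Λ) * h)))) = 0) :
    ∀ a ∈ gset h e q Zp Zm, Leave ev {v | e * v.1 ≤ -1} a := by
  have H' : ∀ v1 : ℤ, v1 = -e → ev (io h (pe Zp (MvPolynomial.X 0 + C ((v1 : Λ) * h)))) = 0 := by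
    rintro v1 rfl
    rw [← H]
    congr 3
    push_cast
    rw [neg_mul, C_neg]
    ring
  apply leave_gset <;> rintro ⟨v1, v2⟩ hv hv' <;>
    simp only [Set.mem_ofPred_eq, Prod.smul_mk, Prod.mk_add_mk, smul_eq_mul, mul_one, mul_zero,
      mul_neg, mul_add, not_le] at hv hv'
  · have hv1 : v1 = -e := by rcases e_cases he with rfl | rfl <;> omega
    rw [ev_al, H' v1 hv1, zero_mul, zero_mul]
  · omega
  · omega
  · omega
  · have hv1 : v1 = -e := by rcases e_cases he with rfl | rfl <;> omega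
    rw [ev_dd, H' v1 hv1, zero_mul]
  · omega

lemma half2m (he : e * e = 1) (H : ev (io h (pe Zm (MvPolynomial.X 1))) = 0) :
    ∀ a ∈ gset h e q Zp Zm, Leave ev {v | 0 ≤ e * v.2} a := by
  apply leave_gset <;> rintro ⟨v1, v2⟩ hv hv' <;>
    simp only [Set.mem_ofPred_eq, Prod.smul_mk, Prod.mk_add_mk, smul_eq_mul, mul_one, mul_zero,
      mul_neg, mul_add, not_le] at hv hv'
  · omega
  · omega
  · omega
  · have hv1 : v2 = 0 := by rcases e_cases he with rfl | rfl <;> omega
    subst hv1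
    rw [ev_sbe]
    simp only [Int.cast_zero, zero_mul, C_0, add_zero, H]
  · omega
  · have hv1 : v2 = 0 := by rcases e_cases he with rfl | rfl <;> omega
    subst hv1
    rw [ev_dd]
    simp only [Int.cast_zero, zero_mul, C_0, add_zero, H, mul_zero]

lemma half2p (he : e * e = 1)
    (H : ev (io h (pe Zp (MvPolynomial.X 1 - C ((e : Λ) * h)))) = 0) :
    ∀ a ∈ gset h e q Zp Zm, Leave ev {v | e * v.2 ≤ -1} a := by
  have H' : ∀ v1 : ℤ, v1 = -e → ev (io h (pe Zp (MvPolynomial.X 1 + C ((v1 : Λ) * h)))) = 0 := by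
    rintro v1 rfl
    rw [← H]
    congr 3
    push_cast
    rw [neg_mul, C_neg]
    ring
  apply leave_gset <;> rintro ⟨v1, v2⟩ hv hv' <;>
    simp only [Set.mem_ofPred_eq, Prod.smul_mk, Prod.mk_add_mk, smul_eq_mul, mul_one, mul_zero,
      mul_neg, mul_add, not_le] at hv hv'
  · omega
  · have hv1 : v2 = -e := by rcases e_cases he with rfl | rfl <;> omega
    rw [ev_sal, H' v2 hv1, zero_mul, zero_mul]
  · omega
  · omega
  · have hv1 : v2 = -e := by rcases e_cases he with rfl | rfl <;> omega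
    rw [ev_dd, H' v2 hv1, mul_zero]
  · omega

lemma half3 (he : e * e = 1)
    (H : ev (io h (pe q (MvPolynomial.X 1 - MvPolynomial.X 0))) = 0) :
    ∀ a ∈ gset h e q Zp Zm, Leave ev {v | e * v.1 - e * v.2 ≤ 0} a := by
  have H' : ∀ v1 : ℤ, v1 = 0 → ev (io h (pe q (MvPolynomial.X 1 - MvPolynomial.X 0 +
      C ((v1 : Λ) * h)))) = 0 := by
    rintro v1 rfl
    rw [← H]
    congr 3
    simp
  apply leave_gset <;> rintro ⟨v1, v2⟩ hv hv' <;>
    simp only [Set.mem_ofPred_eq, Prod.smul_mk, Prod.mk_add_mk, smul_eq_mul, mul_one, mul_zero,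
      mul_neg, mul_add, not_le] at hv hv'
  · have hv1 : v2 - v1 = 0 := by rcases e_cases he with rfl | rfl <;> omega
    rw [ev_al, H' _ hv1, mul_zero, zero_mul]
  · omega
  · omega
  · have hv1 : v2 - v1 = 0 := by rcases e_cases he with rfl | rfl <;> omega
    rw [ev_sbe, H' _ hv1, mul_zero, zero_mul]
  · omega
  · omega

lemma half4 (he : e * e = 1)
    (H : ev (io h (pe q (MvPolynomial.X 0 - MvPolynomial.X 1 + C ((e : Λ) * h)))) = 0) :
    ∀ a ∈ gset h e q Zp Zm, Leave ev {v | 1 ≤ e * v.1 - e * v.2} a := by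
  have H' : ∀ v1 : ℤ, v1 = e → ev (io h (pe q (MvPolynomial.X 0 - MvPolynomial.X 1 +
      C ((v1 : Λ) * h)))) = 0 := by
    rintro v1 rfl
    exact H
  apply leave_gset <;> rintro ⟨v1, v2⟩ hv hv' <;>
    simp only [Set.mem_ofPred_eq, Prod.smul_mk, Prod.mk_add_mk, smul_eq_mul, mul_one, mul_zero,
      mul_neg, mul_add, not_le] at hv hv'
  · omega
  · have hv1 : v1 - v2 = e := by rcases e_cases he with rfl | rfl <;> omega
    rw [ev_sal, H' _ hv1, mul_zero, zero_mul]
  · have hv1 : v1 - v2 = e := by rcases e_cases he with rfl | rfl <;> omega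
    rw [ev_be, H' _ hv1, mul_zero, zero_mul]
  · omega
  · omega
  · omega

end gens

section vanish

variable {e : ℤ} {q Zp Zm : Polynomial Λ}

/-- Vanishing of the degree-zero functional on the ideal. -/
theorem vanish (he : e * e = 1)
    (HA : ev (io h (pe Zm (MvPolynomial.X 0))) = 0 ∨
      ev (io h (pe Zp (MvPolynomial.X 0 - C ((e : Λ) * h)))) = 0)
    (HB : (ev (io h (pe Zm (MvPolynomial.X 1))) = 0 ∨
      ev (io h (pe Zp (MvPolynomial.X 1 - C ((e : Λ) * h)))) = 0) ∨
      (ev (io h (pe q (MvPolynomial.X 1 - MvPolynomial.X 0))) = 0 ∨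
      ev (io h (pe q (MvPolynomial.X 0 - MvPolynomial.X 1 + C ((e : Λ) * h)))) = 0))
    {a : Diff h} (ha : a ∈ idl h (gset h e q Zp Zm) e) : ev (a.coeff 1) = 0 := by
  classical
  induction ha using Submodule.span_induction with
  | mem x hx =>
    obtain ⟨n, hn, F, hF, E, hE, rfl⟩ := hx
    rw [SkewMonoidAlgebra.coeff_mul, SkewMonoidAlgebra.sum_def', map_sum]
    apply Finset.sum_eq_zero
    intro l1 hl1
    rw [SkewMonoidAlgebra.mem_support_iff] at hl1
    rw [SkewMonoidAlgebra.sum_def', map_sum]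
    apply Finset.sum_eq_zero
    intro l2 _
    split_ifs with h1
    swap
    · rw [map_zero]
    have h2 : (l1 • E.coeff l2 : Loc h) = tau h l1.toAdd (E.coeff l2) := rfl
    rw [h2, map_mul]
    have hdeg := hF.2 l1 hl1
    have hsum : l1.toAdd + l2.toAdd = 0 := by rw [← toAdd_mul, h1, toAdd_one]
    -- the two ways of vanishing
    have wayF : ∀ X : Set (ℤ × ℤ), (∀ a ∈ gset h e q Zp Zm, Leave ev X a) → (0 : ℤ × ℤ) ∈ X →
        l1.toAdd ∉ X → ev (F.coeff l1) * ev (tau h l1.toAdd (E.coeff l2)) = 0 := by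
      intro X hX h0 hl
      have := leave_alg hX hF.1 0 h0 l1 (by rwa [zero_add])
      rw [tau_zero] at this
      rw [this, zero_mul]
    have wayE : ∀ X : Set (ℤ × ℤ), (∀ a ∈ gset h e q Zp Zm, Leave ev X a) → (0 : ℤ × ℤ) ∉ X →
        l1.toAdd ∈ X → ev (F.coeff l1) * ev (tau h l1.toAdd (E.coeff l2)) = 0 := by
      intro X hX h0 hl
      have := leave_alg hX hE.1 l1.toAdd hl l2 (by rwa [hsum])
      rw [this, mul_zero]
    by_cases hneg1 : e * l1.toAdd.1 < 0
    · rcases HA with HA | HA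
      · exact wayF _ (half1m he HA) (by simp) (by simpa using hneg1)
      · exact wayE _ (half1p he HA) (by simp) (by simp only [Set.mem_ofPred_eq]; omega)
    · have hneg2 : e * l1.toAdd.2 < 0 := by
        have : e * (l1.toAdd.1 + l1.toAdd.2) = e * l1.toAdd.1 + e * l1.toAdd.2 := by ring
        omega
      rcases HB with (HB | HB) | (HB | HB)
      · exact wayF _ (half2m he HB) (by simp) (by simpa using hneg2)
      · exact wayE _ (half2p he HB) (by simp) (by simp only [Set.mem_ofPred_eq]; omega)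
      · exact wayF _ (half3 he HB) (by simp) (by simp only [Set.mem_ofPred_eq]; omega)
      · exact wayE _ (half4 he HB) (by simp) (by simp only [Set.mem_ofPred_eq]; omega)
  | zero => rw [SkewMonoidAlgebra.coeff_zero, Finsupp.coe_zero, Pi.zero_apply, map_zero]
  | add x z _ _ hx hz => rw [SkewMonoidAlgebra.coeff_add, Finsupp.add_apply, map_add, hx, hz,
      add_zero]
  | smul r x _ hx =>
    rw [SkewMonoidAlgebra.coeff_smul, Finsupp.smul_apply, Algebra.smul_def, map_mul, hx, mul_zero]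

end vanish

end Pool.CB55c57e
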