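import Pool.Agent.Lib.MP_55c57e_al.Main

set_option autoImplicit false

noncomputable section

namespace Pool.CB55c57e

open MvPolynomial

section abstractOps

variable {Λ : Type} [CommRing Λ] {g w : ℕ}

/-! ### The two chambers -/

/-- `∏_l (t + m_l)` -/
def q1 {n : ℕ} (m : Fin n → Λ) : Polynomial Λ := ∏ l, (Polynomial.X + Polynomial.C (m l))

/-- `∏_l (t - m_l)` -/
def q2 {n : ℕ} (m : Fin n → Λ) : Polynomial Λ := ∏ l, (Polynomial.X - Polynomial.C (m l))

variable {h : Λ} {m : Fin g → Λ} {z : Fin w → Λ}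

lemma pe_q1 (a : Pol Λ) : pe (q1 m) a = lin m a := by
  simp only [pe, q1, lin, map_prod, map_add, Polynomial.aeval_X, Polynomial.aeval_C]
  rfl

lemma pe_q2 (a : Pol Λ) : pe (q2 m) a = C ((-1) ^ g) * lin m (-a) := by
  simp only [pe, q2, lin, map_prod, map_sub, Polynomial.aeval_X, Polynomial.aeval_C]
  have h1 : (C ((-1) ^ g) : Pol Λ) = ∏ _l : Fin g, (-1) := by
    rw [Finset.prod_const, Finset.card_univ, Fintype.card_fin]
    simp
  rw [h1, ← Finset.prod_mul_distrib]
  refine Finset.prod_congr rfl (fun l _ => ?_)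
  have : algebraMap Λ (Pol Λ) (m l) = C (m l) := rfl
  rw [this]
  ring

lemma pe_z2 (a : Pol Λ) : pe (q1 (fun k => h + z k)) a = lin z (a + C h) := by
  rw [pe_q1, lin, lin]
  refine Finset.prod_congr rfl (fun l _ => ?_)
  rw [map_add]
  ring

lemma pe_one (a : Pol Λ) : pe (1 : Polynomial Λ) a = 1 := by
  simp [pe]

/-- The first sign. -/
lemma monopoles_eq1 : monopoles h m z = gset h 1 (q1 m) 1 (q1 z) := by
  have hE : raise h 1 (q1 m) 1 = opE h m := by
    funext f
    rw [raise, op, opE, ov, ov, map_mul, swl_al, al, pe_one, pe_one, pe_q1, pe_q1, swl_io]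
    simp only [one_mul, one_smul, Prod.swap_prod_mk, map_mul]
    exact congrArg₂ (· + ·) (congrArg (y h _) (by ring)) (congrArg (y h _) (by ring))
  have hF : lower h 1 (q1 m) (q1 z) = opF h m z := by
    funext f
    rw [lower, op, opF, ov, ov, map_mul, swl_be, be, pe_q1, pe_q1, pe_q1, pe_q1, swl_io]
    simp only [one_smul, Prod.swap_prod_mk, map_mul]
    exact congrArg₂ (· + ·) (congrArg (y h _) (by ring)) (congrArg (y h _) (by ring))
  have hp : Dp h 1 1 = opDp h := by
    rw [Dp, opDp, pe_one, pe_one]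
    simp
  have hm : Dm h 1 (q1 z) = opDm h z := by
    rw [Dm, opDm, pe_q1, pe_q1]
    simp
  rw [gset, monopoles, hE, hF, hp, hm]

/-- The second sign. -/
lemma monopoles_eq2 : monopoles h m z = gset h (-1)
    (Polynomial.C (-(-1) ^ g) * q2 m) (q1 z) 1 := by
  have hq : ∀ a : Pol Λ, pe (Polynomial.C (-(-1) ^ g) * q2 m) a = - lin m (-a) := by
    intro a
    have h0 : pe (Polynomial.C (-(-1) ^ g) * q2 m) a
        = C (-(-1) ^ g) * pe (q2 m) a := by
      rw [pe, pe, map_mul, Polynomial.aeval_C]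
      rfl
    rw [h0, pe_q2, ← mul_assoc, ← C_mul]
    have : (-(-1) ^ g * (-1) ^ g : Λ) = -1 := by
      rw [neg_mul, ← mul_pow]
      simp
    rw [this, C_neg, C_1]
    ring
  have hF : raise h (-1) (Polynomial.C (-(-1) ^ g) * q2 m) (q1 z) = opF h m z := by
    funext f
    rw [raise, op, opF, ov, ov, map_mul, swl_al, al, pe_q1, pe_q1, hq, hq, swl_io]
    have h1 : (-(X 1 - X 0) : Pol Λ) = X 0 - X 1 := by ring
    have h2 : (-(X 0 - X 1) : Pol Λ) = X 1 - X 0 := by ring
    rw [h1, h2]
    have h3 : ((-1 : ℤ) • ((1, 0) : ℤ × ℤ)) = (-1, 0) := by rfl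
    have h4 : ((-1 : ℤ) • ((1, 0) : ℤ × ℤ).swap) = (0, -1) := by rfl
    rw [h3, h4]
    simp only [map_mul, map_neg]
    exact congrArg₂ (· + ·) (congrArg (y h _) (by ring)) (congrArg (y h _) (by ring))
  have hE : lower h (-1) (Polynomial.C (-(-1) ^ g) * q2 m) 1 = opE h m := by
    funext f
    rw [lower, op, opE, ov, ov, map_mul, swl_be, be, pe_one, pe_one, hq, hq, swl_io]
    have h1 : (-(X 1 - X 0) : Pol Λ) = X 0 - X 1 := by ring
    have h2 : (-(X 0 - X 1) : Pol Λ) = X 1 - X 0 := by ring
    rw [h1, h2]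
    have h3 : ((-1 : ℤ) • ((-1, 0) : ℤ × ℤ)) = (1, 0) := by rfl
    have h4 : ((-1 : ℤ) • ((-1, 0) : ℤ × ℤ).swap) = (0, 1) := by rfl
    rw [h3, h4]
    simp only [one_mul, map_mul, map_neg]
    exact congrArg₂ (· + ·) (congrArg (y h _) (by ring)) (congrArg (y h _) (by ring))
  have hm : Dp h (-1) (q1 z) = opDm h z := by
    rw [Dp, opDm, pe_q1, pe_q1]
    rfl
  have hp : Dm h (-1) 1 = opDp h := by
    rw [Dm, opDp, pe_one, pe_one, mul_one, map_one]
    rfl
  rw [gset, monopoles, hE, hF, hp, hm, Set.union_comm (Set.range (opF h m z)), Set.pair_comm]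

lemma hz1 (a : Pol Λ) : pe (q1 z) a = pe (q1 z) a * pe 1 (a - C (((1 : ℤ) : Λ) * h)) := by
  rw [pe_one, mul_one]

lemma hz2 (a : Pol Λ) : pe (q1 (fun k => h + z k)) a
    = pe 1 a * pe (q1 z) (a - C (((-1 : ℤ) : Λ) * h)) := by
  rw [pe_one, one_mul, pe_z2, pe_q1]
  congr 1
  simp

lemma q1_monic : (q1 m).Monic := Polynomial.monic_prod_of_monic _ _
  (fun l _ => Polynomial.monic_X_add_C _)
lemma q2_monic : (q2 m).Monic := Polynomial.monic_prod_of_monic _ _
  (fun l _ => Polynomial.monic_X_sub_C _)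

lemma q1_deg [Nontrivial Λ] : (q1 m).natDegree = g := by
  rw [q1, Polynomial.natDegree_prod_of_monic _ _ (fun l _ => Polynomial.monic_X_add_C _)]
  simp only [Polynomial.natDegree_X_add_C]
  simp
lemma q2_deg [Nontrivial Λ] : (q2 m).natDegree = g := by
  rw [q2, Polynomial.natDegree_prod_of_monic _ _ (fun l _ => Polynomial.monic_X_sub_C _)]
  simp only [Polynomial.natDegree_X_sub_C]
  simp

lemma eval_q1 (a : Λ) : (q1 m).eval a = ∏ l, (a + m l) := by
  simp [q1, Polynomial.eval_prod]

lemma eval_q2 (a : Λ) : (q2 m).eval a = ∏ l, (a - m l) := by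
  simp [q2, Polynomial.eval_prod]

end abstractOps

variable {g w : ℕ}

/-! ### Changing the cocharacter -/

lemma part_scale {Λ : Type} [CommRing Λ] {h : Λ} {S : Set (Diff h)} {e t n : ℤ} (ht : 0 < t) :
    part h S (t * e) (t * n) = part h S e n := by
  ext a
  constructor
  · rintro ⟨ha, ha'⟩
    refine ⟨ha, fun l hl => ?_⟩
    have := ha' l hl
    rw [mul_assoc] at this
    exact mul_left_cancel₀ ht.ne' this
  · rintro ⟨ha, ha'⟩
    refine ⟨ha, fun l hl => ?_⟩
    rw [mul_assoc, ha' l hl]

lemma idl_scale {Λ : Type} [CommRing Λ] {h : Λ} {S : Set (Diff h)} {e t : ℤ} (ht : 0 < t) :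
    idl h S (t * e) = idl h S e := by
  apply le_antisymm
  · rw [idl, Submodule.span_le]
    rintro x ⟨n, hn, F, hF, E, hE, rfl⟩
    by_cases h0 : F = 0
    · rw [h0, zero_mul]
      exact zero_mem _
    · obtain ⟨l, hl⟩ : ∃ l, F.coeff l ≠ 0 := by
        by_contra hcon
        push Not at hcon
        apply h0
        ext l
        rw [hcon l]
        rfl
      have h1 := hF.2 l hl
      set r : ℤ := -(e * (l.toAdd.1 + l.toAdd.2)) with hr
      have h2 : n = t * r := by rw [hr]; linarith
      have hrpos : 0 < r := by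
        by_contra hcon
        push Not at hcon
        nlinarith
      rw [h2] at hE
      have h3 : -n = t * (-r) := by rw [h2]; ring
      rw [h3] at hF
      rw [part_scale ht] at hE hF
      exact Submodule.subset_span ⟨r, hrpos, F, hF, E, hE, rfl⟩
  · rw [idl, Submodule.span_le]
    rintro x ⟨n, hn, F, hF, E, hE, rfl⟩
    refine Submodule.subset_span ⟨t * n, mul_pos ht hn, F, ?_, E, ?_, rfl⟩
    · rw [← mul_neg, part_scale ht]
      exact hF
    · rw [part_scale ht]
      exact hE

/-! ### The special points -/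

/-- Index set of the special points. -/
abbrev Ix (g w : ℕ) : Type :=
  {p : Fin w × Fin w // p.1 < p.2} ⊕ (Fin w × Fin g) ⊕ (Fin w × Fin g)

section points

variable {Λ : Type} [CommRing Λ]

/-- First coordinates. -/
def ptP (ζ : Fin w → Λ) : Ix g w → Λ
  | Sum.inl p => ζ p.1.1
  | Sum.inr (Sum.inl p) => ζ p.1
  | Sum.inr (Sum.inr p) => ζ p.1

/-- Second coordinates. -/
def ptQ (ζ : Fin w → Λ) (t : Fin g → Λ) (k : Λ) : Ix g w → Λ
  | Sum.inl p => ζ p.1.2
  | Sum.inr (Sum.inl p) => ζ p.1 + t p.2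
  | Sum.inr (Sum.inr p) => ζ p.1 + k - t p.2

end points

/-- Coefficient of a parameter. -/
def cf (v : Option (Fin g ⊕ Fin g ⊕ Fin (w - 1))) : Par g w →ₐ[ℂ] ℂ :=
  MvPolynomial.aeval (fun u => if u = v then 1 else 0)

lemma cf_hb (s : Fin g ⊕ Fin g ⊕ Fin (w - 1)) : cf (some s) (hb g w) = 0 := by
  simp [cf, hb]

lemma cf_mass (l l' : Fin g) : cf (some (Sum.inl l)) (mass g w l') = if l' = l then 1 else 0 := by
  simp [cf, mass]

lemma cf_mass' (j : Fin (w - 1)) (l' : Fin g) : cf (some (Sum.inr (Sum.inr j))) (mass g w l') = 0 := by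
  simp [cf, mass]

lemma cf_fram (l : Fin g) (k : Fin w) : cf (some (Sum.inl l)) (fram g w k) = 0 := by
  rw [fram]
  split_ifs
  · simp [cf]
  · simp

lemma cf_fram' (j : Fin (w - 1)) (k : Fin w) :
    cf (some (Sum.inr (Sum.inr j))) (fram g w k) = if (k : ℕ) = j then 1 else 0 := by
  rw [fram]
  split_ifs with h1 h2 h2
  · simp [cf, Fin.ext_iff, h2]
  · simp [cf, Fin.ext_iff, h2]
  · exact absurd j.2 (by omega)
  · simp

section generic

variable {ζ : Fin w → Par g w} {t : Fin g → Par g w} {kk : Par g w} {σ : ℂ}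

lemma pts_inj (hσ : σ = 1 ∨ σ = -1)
    (h1 : ∀ j k, cf (some (Sum.inr (Sum.inr j))) (ζ k) = - if (k : ℕ) = (j : ℕ) then (1 : ℂ) else 0)
    (h2 : ∀ l k, cf (some (Sum.inl l)) (ζ k) = 0)
    (h3 : ∀ l l', cf (some (Sum.inl l)) (t l') = if l' = l then σ else 0)
    (h4 : ∀ j l, cf (some (Sum.inr (Sum.inr j))) (t l) = 0)
    (h5 : ∀ s, cf (some s) kk = 0) :
    Function.Injective (fun i => ptP ζ i + ptQ ζ t kk i) := by
  have hσ0 : σ ≠ 0 := by rcases hσ with rfl | rfl <;> norm_num
  have hσ2 : σ ≠ -σ := by rcases hσ with rfl | rfl <;> norm_num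
  have hfr : ∀ k k' : Fin w, (∀ j : Fin (w - 1), (if (k : ℕ) = (j : ℕ) then (1 : ℂ) else 0)
      = if (k' : ℕ) = (j : ℕ) then (1 : ℂ) else 0) → k = k' := by
    intro k k' hj
    by_cases hk : (k : ℕ) < w - 1
    · have := hj ⟨k, hk⟩
      simp only [if_true] at this
      by_contra hne
      rw [if_neg (fun h => hne (Fin.ext h.symm))] at this
      exact one_ne_zero this
    · by_cases hk' : (k' : ℕ) < w - 1
      · have := hj ⟨k', hk'⟩
        simp only [if_true] at this
        by_contra hne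
        rw [if_neg (fun h => hne (Fin.ext h))] at this
        exact one_ne_zero this.symm
      · apply Fin.ext
        have := k.2
        have := k'.2
        omega
  intro i i' hii
  have hcf : ∀ s, cf (some s) (ptP ζ i + ptQ ζ t kk i) = cf (some s) (ptP ζ i' + ptQ ζ t kk i') :=
    fun s => congrArg _ hii
  rcases i with ⟨⟨a, b⟩, hab⟩ | ⟨a, b⟩ | ⟨a, b⟩ <;>
    rcases i' with ⟨⟨a', b'⟩, hab'⟩ | ⟨a', b'⟩ | ⟨a', b'⟩ <;>
    simp only [ptP, ptQ] at hcf
  · -- two pairs of framings
    have hj : ∀ j : Fin (w - 1), (if (a : ℕ) = (j : ℕ) then (1 : ℂ) else 0)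
        + (if (b : ℕ) = (j : ℕ) then (1 : ℂ) else 0) = (if (a' : ℕ) = (j : ℕ) then (1 : ℂ) else 0)
        + (if (b' : ℕ) = (j : ℕ) then (1 : ℂ) else 0) := by
      intro j
      have := hcf (Sum.inr (Sum.inr j))
      simp only [map_add, h1] at this
      linear_combination -this
    simp only at hab hab'
    have hab1 : (a : ℕ) < b := hab
    have hab2 : (a' : ℕ) < b' := hab'
    have hb1 := b.2
    have hb2 := b'.2
    have haa : a = a' := by
      have e1 := hj ⟨a, by omega⟩
      have e2 := hj ⟨a', by omega⟩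
      simp only [if_true] at e1 e2
      rw [if_neg (by omega : ¬ (b : ℕ) = (a : ℕ)), add_zero] at e1
      rw [if_neg (by omega : ¬ (b' : ℕ) = (a' : ℕ)), add_zero] at e2
      by_contra hne
      have hne' : ¬ (a' : ℕ) = (a : ℕ) := fun h => hne (Fin.ext h.symm)
      have hne'' : ¬ (a : ℕ) = (a' : ℕ) := fun h => hne (Fin.ext h)
      rw [if_neg hne', zero_add] at e1
      rw [if_neg hne'', zero_add] at e2
      by_cases h6 : (b' : ℕ) = (a : ℕ)
      · by_cases h7 : (b : ℕ) = (a' : ℕ)
        · omega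
        · rw [if_neg h7] at e2
          exact zero_ne_one e2
      · rw [if_neg h6] at e1
        exact one_ne_zero e1
    subst haa
    have hbb : b = b' := by
      apply hfr
      intro j
      have := hj j
      linear_combination this
    subst hbb
    rfl
  · exfalso
    have := hcf (Sum.inl b')
    simp only [map_add, h2, h3, if_true] at this
    apply hσ0
    linear_combination -this
  · exfalso
    have := hcf (Sum.inl b')
    simp only [map_add, map_sub, h2, h3, h5, if_true] at this
    apply hσ0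
    linear_combination this
  · exfalso
    have := hcf (Sum.inl b)
    simp only [map_add, h2, h3, if_true] at this
    apply hσ0
    linear_combination this
  · have hb0 := hcf (Sum.inl b)
    simp only [map_add, h2, h3, if_true, zero_add] at hb0
    have hbb : b = b' := by
      by_contra hne
      rw [if_neg (fun h => hne h.symm)] at hb0
      exact hσ0 hb0
    subst hbb
    have haa : a = a' := by
      apply hfr
      intro j
      have := hcf (Sum.inr (Sum.inr j))
      simp only [map_add, h1, h4] at this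
      linear_combination (-1/2 : ℂ) * this
    subst haa
    rfl
  · exfalso
    have hb0 := hcf (Sum.inl b)
    simp only [map_add, map_sub, h2, h3, h5, if_true, zero_add, zero_sub] at hb0
    split_ifs at hb0
    · exact hσ2 hb0
    · exact hσ0 (by simpa using hb0)
  · exfalso
    have := hcf (Sum.inl b)
    simp only [map_add, map_sub, h2, h3, h5, if_true] at this
    apply hσ0
    linear_combination -this
  · exfalso
    have hb0 := hcf (Sum.inl b)
    simp only [map_add, map_sub, h2, h3, h5, if_true, zero_add, zero_sub] at hb0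
    split_ifs at hb0
    · exact hσ2 hb0.symm
    · exact hσ0 (by simpa using hb0)
  · have hb0 := hcf (Sum.inl b)
    simp only [map_add, map_sub, h2, h3, h5, if_true, zero_add, zero_sub] at hb0
    have hbb : b = b' := by
      by_contra hne
      rw [if_neg (fun h => hne h.symm)] at hb0
      exact hσ0 (by simpa using hb0)
    subst hbb
    have haa : a = a' := by
      apply hfr
      intro j
      have := hcf (Sum.inr (Sum.inr j))
      simp only [map_add, map_sub, h1, h4, h5] at this
      linear_combination (-1/2 : ℂ) * this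
    subst haa
    rfl

lemma pts_den (hσ : σ = 1 ∨ σ = -1)
    (h1 : ∀ j k, cf (some (Sum.inr (Sum.inr j))) (ζ k) = - if (k : ℕ) = (j : ℕ) then (1 : ℂ) else 0)
    (h3 : ∀ l l', cf (some (Sum.inl l)) (t l') = if l' = l then σ else 0)
    (h5 : ∀ s, cf (some s) kk = 0) :
    ∀ i, ∀ j : ℤ, ptP ζ i - ptQ ζ t kk i ≠ (j : Par g w) * hb g w := by
  have hσ0 : σ ≠ 0 := by rcases hσ with rfl | rfl <;> norm_num
  intro i j hij
  have hcf : ∀ s, cf (some s) (ptP ζ i - ptQ ζ t kk i) = 0 := by
    intro s
    rw [hij, map_mul, cf_hb, mul_zero]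
  rcases i with ⟨⟨a, b⟩, hab⟩ | ⟨a, b⟩ | ⟨a, b⟩ <;> simp only [ptP, ptQ] at hcf
  · have hab1 : (a : ℕ) < b := hab
    have hb1 := b.2
    have := hcf (Sum.inr (Sum.inr ⟨a, by omega⟩))
    simp only [map_sub, h1, if_true] at this
    rw [if_neg (by omega : ¬ (b : ℕ) = (a : ℕ))] at this
    norm_num at this
  · have := hcf (Sum.inl b)
    simp only [map_sub, map_add, h3, if_true] at this
    apply hσ0
    linear_combination -this
  · have := hcf (Sum.inl b)
    simp only [map_sub, map_add, h3, h5, if_true] at this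
    apply hσ0
    linear_combination this

end generic

/-! ### Counting -/

lemma card_fin_lt (N c : ℕ) : (Finset.univ.filter (fun a : Fin N => (a : ℕ) + c < N)).card
    = N - c := by
  have h1 : (Finset.univ.filter (fun a : Fin N => (a : ℕ) + c < N)).card
      = ((Finset.range N).filter (fun a => a + c < N)).card := by
    rw [Finset.card_filter, Finset.card_filter]
    exact Fin.sum_univ_eq_sum_range (fun a => if a + c < N then 1 else 0) N
  rw [h1]
  have h2 : (Finset.range N).filter (fun a => a + c < N) = Finset.range (N - c) := by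
    ext a
    simp only [Finset.mem_filter, Finset.mem_range]
    omega
  rw [h2, Finset.card_range]

lemma card_Bi (g w : ℕ) : Fintype.card (Bi g w) = ∑ b ∈ Finset.range w, (2 * g + w - (b + 1)) := by
  rw [Fintype.card_subtype, Finset.card_filter, ← Finset.univ_product_univ, Finset.sum_product_right]
  rw [← Fin.sum_univ_eq_sum_range (fun b => 2 * g + w - (b + 1)) w]
  refine Finset.sum_congr rfl (fun b _ => ?_)
  rw [← card_fin_lt (2 * g + w) ((b : ℕ) + 1), Finset.card_filter]
  simp only [add_assoc]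

lemma sum_eq (g w : ℕ) : ∑ b ∈ Finset.range w, (2 * g + w - (b + 1))
    = w * (w - 1) / 2 + 2 * g * w := by
  rw [← Finset.sum_range_id]
  have h1 : ∀ b ∈ Finset.range w, 2 * g + w - (b + 1) = (w - 1 - b) + 2 * g := by
    intro b hb
    rw [Finset.mem_range] at hb
    omega
  rw [Finset.sum_congr rfl h1, Finset.sum_add_distrib, Finset.sum_range_reflect (fun i => i) w,
    Finset.sum_const, Finset.card_range, smul_eq_mul]
  ring

lemma card_pairs (w : ℕ) : Fintype.card {p : Fin w × Fin w // p.1 < p.2} = w * (w - 1) / 2 := by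
  rw [Fintype.card_subtype, Finset.card_filter, ← Finset.univ_product_univ,
    Finset.sum_product_right, ← Finset.sum_range_id,
    ← Fin.sum_univ_eq_sum_range (fun i => i) w]
  refine Finset.sum_congr rfl (fun b _ => ?_)
  rw [← Finset.card_filter]
  have : Finset.univ.filter (fun a : Fin w => a < b) = Finset.Iio b := by
    ext a
    simp
  rw [this, Fin.card_Iio]

lemma card_Ix (g w : ℕ) : Fintype.card (Ix g w) = w * (w - 1) / 2 + 2 * g * w := by
  rw [Fintype.card_sum, Fintype.card_sum, card_pairs, Fintype.card_prod, Fintype.card_fin,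
    Fintype.card_fin]
  ring

/-- Freeness of the Cartan subquotient in both chambers. -/
theorem free_sign (g w : ℕ) (e : ℤ) (he : e = 1 ∨ e = -1) :
    Module.Free (Par g w) (Cartan (hb g w) (monopoles (hb g w) (mass g w) (fram g w)) e) ∧
      Module.Finite (Par g w) (Cartan (hb g w) (monopoles (hb g w) (mass g w) (fram g w)) e) ∧
      Module.finrank (Par g w) (Cartan (hb g w) (monopoles (hb g w) (mass g w) (fram g w)) e)
        = w * (w - 1) / 2 + 2 * g * w := by
  have hcard : Fintype.card (Ix g w) = Fintype.card (Bi g w) := by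
    rw [card_Ix, card_Bi, sum_eq]
  have hcard' : Fintype.card (Bi g w) = w * (w - 1) / 2 + 2 * g * w := by
    rw [card_Bi, sum_eq]
  rcases he with rfl | rfl
  · rw [monopoles_eq1, ← hcard']
    let ζ : Fin w → Par g w := fun k => -fram g w k
    let t : Fin g → Par g w := fun l => -mass g w l
    have g1 : ∀ j k, cf (some (Sum.inr (Sum.inr j))) (ζ k) = - if (k : ℕ) = (j : ℕ) then (1 : ℂ) else 0 := by
      intro j k
      simp only [ζ, map_neg, cf_fram']
    have g2 : ∀ l k, cf (some (Sum.inl l)) (ζ k) = 0 := by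
      intro l k
      simp only [ζ, map_neg, cf_fram, neg_zero]
    have g3 : ∀ l l', cf (some (Sum.inl l)) (t l') = if l' = l then (-1 : ℂ) else 0 := by
      intro l l'
      simp only [t, map_neg, cf_mass]
      split_ifs <;> simp
    have g4 : ∀ j l, cf (some (Sum.inr (Sum.inr j))) (t l) = 0 := by
      intro j l
      simp only [t, map_neg, cf_mass', neg_zero]
    have g5 : ∀ s, cf (some s) (((1 : ℤ) : Par g w) * hb g w) = 0 := by
      intro s
      rw [map_mul, cf_hb, mul_zero]
    have hroot : ∀ k, (q1 (fram g w)).eval (ζ k) = 0 := by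
      intro k
      rw [eval_q1]
      exact Finset.prod_eq_zero (Finset.mem_univ k) (by simp [ζ])
    have hqroot : ∀ l, (q1 (mass g w)).eval (t l) = 0 := by
      intro l
      rw [eval_q1]
      exact Finset.prod_eq_zero (Finset.mem_univ l) (by simp [t])
    refine main_free (c := 1) (q₀ := q1 (mass g w)) (by norm_num) hz1 (by norm_num) (by simp) q1_monic
      q1_deg q1_monic q1_deg (ptP ζ) (ptQ ζ t (((1 : ℤ) : Par g w) * hb g w))
      (pts_den (Or.inr rfl) g1 g3 g5) ?_ ?_ (pts_inj (Or.inr rfl) g1 g2 g3 g4 g5) hcard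
    · rintro (⟨⟨a, b⟩, hab⟩ | ⟨a, b⟩ | ⟨a, b⟩) <;> exact Or.inl (hroot _)
    · rintro (⟨⟨a, b⟩, hab⟩ | ⟨a, b⟩ | ⟨a, b⟩)
      · exact Or.inl (Or.inl (hroot _))
      · refine Or.inr (Or.inl ?_)
        simp only [ptP, ptQ]
        rw [add_sub_cancel_left]
        exact hqroot b
      · refine Or.inr (Or.inr ?_)
        simp only [ptP, ptQ]
        have : ζ a - (ζ a + ((1 : ℤ) : Par g w) * hb g w - t b) + ((1 : ℤ) : Par g w) * hb g w
            = t b := by ring
        rw [this]
        exact hqroot b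
  · rw [monopoles_eq2, ← hcard']
    let ζ : Fin w → Par g w := fun k => -fram g w k - hb g w
    let t : Fin g → Par g w := fun l => mass g w l
    have g1 : ∀ j k, cf (some (Sum.inr (Sum.inr j))) (ζ k) = - if (k : ℕ) = (j : ℕ) then (1 : ℂ) else 0 := by
      intro j k
      simp only [ζ, map_sub, map_neg, cf_fram', cf_hb, sub_zero]
    have g2 : ∀ l k, cf (some (Sum.inl l)) (ζ k) = 0 := by
      intro l k
      simp only [ζ, map_sub, map_neg, cf_fram, cf_hb, neg_zero, sub_zero]
    have g3 : ∀ l l', cf (some (Sum.inl l)) (t l') = if l' = l then (1 : ℂ) else 0 := by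
      intro l l'
      simp only [t, cf_mass]
    have g4 : ∀ j l, cf (some (Sum.inr (Sum.inr j))) (t l) = 0 := by
      intro j l
      simp only [t, cf_mass']
    have g5 : ∀ s, cf (some s) (((-1 : ℤ) : Par g w) * hb g w) = 0 := by
      intro s
      rw [map_mul, cf_hb, mul_zero]
    have hroot : ∀ k, (q1 (fram g w)).eval (ζ k - ((-1 : ℤ) : Par g w) * hb g w) = 0 := by
      intro k
      rw [eval_q1]
      exact Finset.prod_eq_zero (Finset.mem_univ k) (by simp [ζ])
    have hqroot : ∀ l, (Polynomial.C (-(-1) ^ g) * q2 (mass g w)).eval (t l) = 0 := by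
      intro l
      rw [Polynomial.eval_mul, eval_q2]
      have : ∏ l', (t l - mass g w l') = 0 :=
        Finset.prod_eq_zero (Finset.mem_univ l) (by simp [t])
      rw [this, mul_zero]
    refine main_free (c := -(-1) ^ g) (q₀ := q2 (mass g w)) (Z := q1 (fun k => hb g w + fram g w k)) (by norm_num) hz2 ?_ rfl
      q2_monic q2_deg q1_monic q1_deg (ptP ζ) (ptQ ζ t (((-1 : ℤ) : Par g w) * hb g w))
      (pts_den (Or.inl rfl) g1 g3 g5) ?_ ?_ (pts_inj (Or.inl rfl) g1 g2 g3 g4 g5) hcard
    · rw [neg_mul_neg, ← mul_pow]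
      simp
    · rintro (⟨⟨a, b⟩, hab⟩ | ⟨a, b⟩ | ⟨a, b⟩) <;> exact Or.inr (hroot _)
    · rintro (⟨⟨a, b⟩, hab⟩ | ⟨a, b⟩ | ⟨a, b⟩)
      · exact Or.inl (Or.inr (hroot _))
      · refine Or.inr (Or.inl ?_)
        simp only [ptP, ptQ]
        rw [add_sub_cancel_left]
        exact hqroot b
      · refine Or.inr (Or.inr ?_)
        simp only [ptP, ptQ]
        have : ζ a - (ζ a + ((-1 : ℤ) : Par g w) * hb g w - t b) + ((-1 : ℤ) : Par g w) * hb g w
            = t b := by ring
        rw [this]
        exact hqroot b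

/-- Freeness of the Cartan subquotient for every generic cocharacter. -/
theorem free_all (g w : ℕ) (ν : ℤ) (hν : ν ≠ 0) :
    Module.Free (Par g w) (Cartan (hb g w) (monopoles (hb g w) (mass g w) (fram g w)) ν) ∧
      Module.Finite (Par g w) (Cartan (hb g w) (monopoles (hb g w) (mass g w) (fram g w)) ν) ∧
      Module.finrank (Par g w) (Cartan (hb g w) (monopoles (hb g w) (mass g w) (fram g w)) ν)
        = w * (w - 1) / 2 + 2 * g * w := by
  obtain ⟨e, t, he, ht, rfl⟩ : ∃ e t : ℤ, (e = 1 ∨ e = -1) ∧ 0 < t ∧ ν = t * e := by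
    rcases lt_or_gt_of_ne hν with h | h
    · exact ⟨-1, -ν, Or.inr rfl, by omega, by ring⟩
    · exact ⟨1, ν, Or.inl rfl, h, by ring⟩
  have h1 : part (hb g w) (monopoles (hb g w) (mass g w) (fram g w)) (t * e) 0 = part (hb g w) (monopoles (hb g w) (mass g w) (fram g w)) e 0 := by
    have := part_scale (h := hb g w) (S := monopoles (hb g w) (mass g w) (fram g w)) (e := e) (n := 0) ht
    rwa [mul_zero] at this
  have h2 : idl (hb g w) (monopoles (hb g w) (mass g w) (fram g w)) (t * e) = idl (hb g w) (monopoles (hb g w) (mass g w) (fram g w)) e :=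
    idl_scale ht
  delta cartanModule Cartan idl0
  rw [h1, h2]
  exact free_sign g w e he

lemma cartanSub_free (g w : ℕ) (ν : ℤ) (hν : ν ≠ 0) :
    Module.Free (Par g w) (CartanSub g w ν) ∧ Module.Finite (Par g w) (CartanSub g w ν) ∧
      Module.finrank (Par g w) (CartanSub g w ν) = w * (w - 1) / 2 + 2 * g * w :=
  free_all g w ν hν

end Pool.CB55c57e
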