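import Pool.Agent.Lib.MP_55c57e_al.Basic

set_option autoImplicit false

noncomputable section

namespace Pool.CB55c57e

open MvPolynomial

variable {Λ : Type} [CommRing Λ]

lemma mul_xi (h : Λ) (j : ℤ) : io h (X 0 - X 1 - C ((j : Λ) * h)) * xi h j = 1 := by
  have := IsLocalization.mk'_spec' (Loc h) (1 : Pol Λ)
    ⟨X 0 - X 1 - C ((j : Λ) * h), mem_den h j⟩
  rw [xi, io]
  rw [this, map_one]

lemma xi_unique (h : Λ) (j : ℤ) (a : Loc h)
    (ha : io h (X 0 - X 1 - C ((j : Λ) * h)) * a = 1) : a = xi h j := by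
  have h1 := mul_xi h j
  calc a = a * (io h (X 0 - X 1 - C ((j : Λ) * h)) * xi h j) := by rw [h1, mul_one]
    _ = (io h (X 0 - X 1 - C ((j : Λ) * h)) * a) * xi h j := by ring
    _ = xi h j := by rw [ha, one_mul]

lemma tau_xi (h : Λ) (n : ℤ × ℤ) (j : ℤ) : tau h n (xi h j) = xi h (j - n.1 + n.2) := by
  apply xi_unique
  have h1 := congrArg (tau h n) (mul_xi h j)
  rw [map_mul, map_one, tau_io] at h1
  rw [← h1]
  congr 2
  simp only [map_sub, sh_X0, sh_X1, sh_C]
  push_cast
  simp only [sub_mul, add_mul, C_add, C_sub]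
  ring

lemma swl_xi (h : Λ) (j : ℤ) : swl h (xi h j) = - xi h (-j) := by
  have h1 := congrArg (swl h) (mul_xi h j)
  rw [map_mul, map_one, swl_io] at h1
  have h2 : - swl h (xi h j) = xi h (-j) := by
    apply xi_unique
    rw [← h1]
    simp only [map_sub, sw_X0, sw_X1, sw_C]
    push_cast
    simp only [neg_mul, C_neg]
    simp only [map_sub, map_neg]
    ring
  rw [← h2, neg_neg]

/-- Value of a one-variable polynomial at an element of `Λ[u_1, u_2]`. -/
def pe (Z : Polynomial Λ) (a : Pol Λ) : Pol Λ := Polynomial.aeval a Z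

@[simp] lemma sh_pe (h : Λ) (n : ℤ × ℤ) (Z : Polynomial Λ) (a : Pol Λ) :
    sh h n (pe Z a) = pe Z (sh h n a) := by
  rw [pe, pe, Polynomial.aeval_algHom_apply]

@[simp] lemma sw_pe (Z : Polynomial Λ) (a : Pol Λ) : sw (pe Z a) = pe Z (sw a) := by
  rw [pe, pe, Polynomial.aeval_algHom_apply]

lemma sh_smul (h : Λ) (e : ℤ) (n : ℤ × ℤ) : sh h (e • n) = sh ((e : Λ) * h) n := by
  apply MvPolynomial.algHom_ext
  intro i
  fin_cases i <;> simp <;> ring

/-- The symmetrised term `c y^n` with exponents multiplied by `e`. -/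
def op (h : Λ) (e : ℤ) (n : ℤ × ℤ) (c : Loc h) : Diff h :=
  y h (e • n) c + y h (e • n.swap) (swl h c)

lemma op_swap (h : Λ) (e : ℤ) (n : ℤ × ℤ) (c : Loc h) : op h e n.swap (swl h c) = op h e n c := by
  simp only [op, swl_swl, Prod.swap_swap]
  rw [add_comm]

lemma op_mul (h : Λ) (e : ℤ) (n m : ℤ × ℤ) (c d : Loc h) :
    op h e n c * op h e m d = op h e (n + m) (c * tau h (e • n) d)
      + op h e (n + m.swap) (c * tau h (e • n) (swl h d)) := by
  simp only [op, mul_add, add_mul, y_mul, map_mul, swl_tau, swl_swl, smul_add, Prod.swap_add,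
    Prod.smul_swap, Prod.swap_swap]
  abel

lemma op_zero (h : Λ) (e : ℤ) (c : Loc h) : op h e 0 c = y h 0 (c + swl h c) := by
  simp [op, y_add]

section data

variable (h : Λ) (e : ℤ) (q Zp Zm : Polynomial Λ)

/-- Coefficient of the raising operators. -/
def al : Loc h := io h (pe Zp (X 0) * pe q (X 1 - X 0)) * (-xi h 0)

/-- Coefficient of the lowering operators. -/
def be : Loc h := io h (pe Zm (X 0) * pe q (X 0 - X 1)) * xi h 0

/-- Raising operators. -/
def raise (f : Pol Λ) : Diff h := op h e (1, 0) (io h f * al h q Zp)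

/-- Lowering operators. -/
def lower (f : Pol Λ) : Diff h := op h e (-1, 0) (io h f * be h q Zm)

/-- The raising operator of degree two. -/
def Dp : Diff h := y h (e • (1, 1)) (io h (pe Zp (X 0) * pe Zp (X 1)))

/-- The lowering operator of degree two. -/
def Dm : Diff h := y h (e • (-1, -1)) (io h (pe Zm (X 0) * pe Zm (X 1)))

end data

lemma exists_dd (p : Pol Λ) : ∃ d : Pol Λ, p - sw p = (X 0 - X 1) * d ∧ sw d = d := by
  induction p using MvPolynomial.induction_on with
  | C a => exact ⟨0, by simp, by simp⟩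
  | add p r hp hr =>
    obtain ⟨d, h1, h2⟩ := hp
    obtain ⟨d', h1', h2'⟩ := hr
    refine ⟨d + d', ?_, by simp [h2, h2']⟩
    rw [map_add, mul_add, ← h1, ← h1']
    ring
  | mul_X p i hp =>
    obtain ⟨d, h1, h2⟩ := hp
    fin_cases i
    · refine ⟨d * X 0 + sw p, ?_, ?_⟩
      · simp only [Fin.zero_eta, map_mul, sw_X0]
        linear_combination X 0 * h1
      · simp only [map_add, map_mul, sw_X0, h2, sw_sw]
        linear_combination h1
    · refine ⟨d * X 1 - sw p, ?_, ?_⟩
      · simp only [Fin.mk_one, map_mul, sw_X1]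
        linear_combination X 1 * h1
      · simp only [map_sub, map_mul, sw_X1, h2, sw_sw]
        linear_combination -h1

lemma io_x_xi (h : Λ) : io h (X 0 - X 1) * xi h 0 = 1 := by
  have := mul_xi h 0
  simpa using this

section specialShifts

variable (k : Λ)

@[simp] lemma sa0 : sh k (-1, 0) (X 0) = X 0 - C k := by simp [sub_eq_add_neg]
@[simp] lemma sa1 : sh k (-1, 0) (X 1) = X 1 := by simp
@[simp] lemma sb0 : sh k (1, 0) (X 0) = X 0 + C k := by simp
@[simp] lemma sb1 : sh k (1, 0) (X 1) = X 1 := by simp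
@[simp] lemma sc0 : sh k (0, 1) (X 0) = X 0 := by simp
@[simp] lemma sc1 : sh k (0, 1) (X 1) = X 1 + C k := by simp
@[simp] lemma sd0 : sh k (1, 1) (X 0) = X 0 + C k := by simp
@[simp] lemma sd1 : sh k (1, 1) (X 1) = X 1 + C k := by simp
@[simp] lemma se0 : sh k (-1, -1) (X 0) = X 0 - C k := by simp [sub_eq_add_neg]
@[simp] lemma se1 : sh k (-1, -1) (X 1) = X 1 - C k := by simp [sub_eq_add_neg]
@[simp] lemma sf0 : sh k (0, -1) (X 0) = X 0 := by simp
@[simp] lemma sf1 : sh k (0, -1) (X 1) = X 1 - C k := by simp [sub_eq_add_neg]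

end specialShifts

section identities

variable (h : Λ) (e : ℤ) (q Zp Zm : Polynomial Λ)

lemma tau_e_io (n : ℤ × ℤ) (p : Pol Λ) :
    tau h (e • n) (io h p) = io h (sh ((e : Λ) * h) n p) := by
  rw [tau_io, sh_smul]

lemma tau_e_xi (n : ℤ × ℤ) (k : ℤ) :
    tau h (e • n) (xi h (e * k)) = xi h (e * (k - n.1 + n.2)) := by
  rw [tau_xi]
  congr 1
  simp
  ring

lemma tau_e_xi0 (n : ℤ × ℤ) : tau h (e • n) (xi h 0) = xi h (e * (- n.1 + n.2)) := by
  have := tau_e_xi h e n 0
  simpa using this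

lemma e_xi (k : ℤ) : io h (X 0 - X 1 - C ((k : Λ) * ((e : Λ) * h))) * xi h (e * k) = 1 := by
  have := mul_xi h (e * k)
  rw [← this]
  congr 3
  push_cast
  ring_nf

lemma sy_mul (p r : Pol Λ) : sy h p * sy h r = sy h (p * r) := by
  simp only [sy, y_mul, tau_zero, add_zero, map_mul]

lemma sy_mul_lower (s f : Pol Λ) (hs : sw s = s) :
    sy h s * lower h e q Zm f = lower h e q Zm (s * f) := by
  simp only [sy, lower, op, mul_add, y_mul, tau_zero, zero_add, map_mul, swl_io, hs, mul_assoc]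

lemma sy_mul_raise (s f : Pol Λ) (hs : sw s = s) :
    sy h s * raise h e q Zp f = raise h e q Zp (s * f) := by
  simp only [sy, raise, op, mul_add, y_mul, tau_zero, zero_add, map_mul, swl_io, hs, mul_assoc]

lemma swl_al : swl h (al h q Zp) = io h (pe Zp (X 1) * pe q (X 0 - X 1)) * xi h 0 := by
  rw [al, map_mul, swl_io, map_neg, swl_xi]
  simp

/-- common factor of the mixed terms -/
def kap : Loc h := be h q Zm * tau h (e • (-1, 0)) (swl h (al h q Zp))

lemma kap_eq : kap h e q Zp Zm = swl h (al h q Zp) * tau h (e • (0, 1)) (be h q Zm) := by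
  rw [kap, swl_al, be]
  simp only [map_mul, tau_e_io, tau_e_xi0, sh_pe, map_sub, sa0, sa1, sc0, sc1]
  have h1 : (X 0 - C (e : Λ) * C h : Pol Λ) - X 1 = X 0 - (X 1 + C (e : Λ) * C h) := by ring
  rw [h1]
  norm_num
  ring

/-- Product of a lowering and a raising operator. -/
lemma lower_raise (f g : Pol Λ) :
    lower h e q Zm f * raise h e q Zp g =
      op h e 0 (io h (f * sh ((e : Λ) * h) (-1, 0) g) *
        (be h q Zm * tau h (e • (-1, 0)) (al h q Zp)))
      + op h e (-1, 1) (io h (f * sh ((e : Λ) * h) (-1, 0) (sw g)) * kap h e q Zp Zm) := by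
  rw [lower, raise, op_mul]
  congr 1
  · congr 1
    rw [map_mul, tau_e_io, map_mul]
    ring
  · have h1 : ((-1, 0) + (1, 0).swap : ℤ × ℤ) = (-1, 1) := by rfl
    rw [h1]
    congr 1
    rw [map_mul, map_mul, swl_io, tau_e_io, map_mul, kap]
    ring

/-- Product of a raising and a lowering operator. -/
lemma raise_lower (f g : Pol Λ) :
    raise h e q Zp g * lower h e q Zm f =
      op h e 0 (io h (g * sh ((e : Λ) * h) (1, 0) f) *
        (al h q Zp * tau h (e • (1, 0)) (be h q Zm)))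
      + op h e (-1, 1) (io h (sw g * sh ((e : Λ) * h) (0, 1) f) * kap h e q Zp Zm) := by
  rw [lower, raise, op_mul]
  congr 1
  · congr 1
    rw [map_mul, tau_e_io, map_mul]
    ring
  · rw [← op_swap]
    have h1 : ((1, 0) + (-1, 0).swap : ℤ × ℤ).swap = (-1, 1) := by rfl
    rw [h1]
    congr 1
    have h2 : (e • ((1, 0) : ℤ × ℤ)).swap = e • (0, 1) := by ext <;> simp
    rw [map_mul, swl_tau, swl_swl, h2, map_mul, map_mul, swl_io, tau_e_io, map_mul, kap_eq]
    ring

end identities

end Pool.CB55c57e
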