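import Pool.Agent.Lib.MP_55c57e_al.Gen

set_option autoImplicit false

noncomputable section

namespace Pool.CB55c57e

open MvPolynomial

variable {Λ : Type} [CommRing Λ]

/-- `u_1 + u_2`. -/
def e1 : Pol Λ := X 0 + X 1
/-- `u_1 u_2`. -/
def e2 : Pol Λ := X 0 * X 1

@[simp] lemma sw_e1 : sw (e1 : Pol Λ) = e1 := by simp [e1, add_comm]
@[simp] lemma sw_e2 : sw (e2 : Pol Λ) = e2 := by simp [e2, mul_comm]

/-- Span of the monomials in `e1, e2` with exponents in `T`. -/
def mon (T : Set (ℕ × ℕ)) : Submodule Λ (Pol Λ) :=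
  Submodule.span Λ ((fun t : ℕ × ℕ => e1 ^ t.1 * e2 ^ t.2) '' T)

/-- Span of the monomials in `u_1, u_2` with exponents in `T`. -/
def fmo (T : Set (ℕ × ℕ)) : Submodule Λ (Pol Λ) :=
  Submodule.span Λ ((fun t : ℕ × ℕ => X 0 ^ t.1 * X 1 ^ t.2) '' T)

lemma mem_mon {T : Set (ℕ × ℕ)} {a b : ℕ} (h : (a, b) ∈ T) : (e1 ^ a * e2 ^ b : Pol Λ) ∈ mon T :=
  Submodule.subset_span ⟨(a, b), h, rfl⟩

lemma mem_fmo {T : Set (ℕ × ℕ)} {a b : ℕ} (h : (a, b) ∈ T) :
    (X 0 ^ a * X 1 ^ b : Pol Λ) ∈ fmo T :=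
  Submodule.subset_span ⟨(a, b), h, rfl⟩

lemma mon_mul {T T' T'' : Set (ℕ × ℕ)} (h : ∀ t ∈ T, ∀ t' ∈ T', t + t' ∈ T'') {p r : Pol Λ}
    (hp : p ∈ mon T) (hr : r ∈ mon T') : p * r ∈ mon T'' := by
  induction hp using Submodule.span_induction with
  | mem x hx =>
    obtain ⟨t, ht, rfl⟩ := hx
    induction hr using Submodule.span_induction with
    | mem y hy =>
      obtain ⟨t', ht', rfl⟩ := hy
      have := mem_mon (Λ := Λ) (a := t.1 + t'.1) (b := t.2 + t'.2) (h t ht t' ht')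
      convert this using 1
      simp only [pow_add]
      ring
    | zero => rw [mul_zero]; exact zero_mem _
    | add y z _ _ hy hz => rw [mul_add]; exact add_mem hy hz
    | smul c y _ hy => rw [mul_smul_comm]; exact Submodule.smul_mem _ _ hy
  | zero => rw [zero_mul]; exact zero_mem _
  | add y z _ _ hy hz => rw [add_mul]; exact add_mem hy hz
  | smul c y _ hy => rw [smul_mul_assoc]; exact Submodule.smul_mem _ _ hy

lemma fmo_mul {T T' T'' : Set (ℕ × ℕ)} (h : ∀ t ∈ T, ∀ t' ∈ T', t + t' ∈ T'') {p r : Pol Λ}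
    (hp : p ∈ fmo T) (hr : r ∈ fmo T') : p * r ∈ fmo T'' := by
  induction hp using Submodule.span_induction with
  | mem x hx =>
    obtain ⟨t, ht, rfl⟩ := hx
    induction hr using Submodule.span_induction with
    | mem y hy =>
      obtain ⟨t', ht', rfl⟩ := hy
      have := mem_fmo (Λ := Λ) (a := t.1 + t'.1) (b := t.2 + t'.2) (h t ht t' ht')
      convert this using 1
      simp only [pow_add]
      ring
    | zero => rw [mul_zero]; exact zero_mem _
    | add y z _ _ hy hz => rw [mul_add]; exact add_mem hy hz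
    | smul c y _ hy => rw [mul_smul_comm]; exact Submodule.smul_mem _ _ hy
  | zero => rw [zero_mul]; exact zero_mem _
  | add y z _ _ hy hz => rw [add_mul]; exact add_mem hy hz
  | smul c y _ hy => rw [smul_mul_assoc]; exact Submodule.smul_mem _ _ hy

/-- weight of a monomial in `e1, e2` less than `n` -/
def wlt (n : ℕ) : Set (ℕ × ℕ) := {t | t.1 + 2 * t.2 < n}
/-- degree of a monomial in `u_1, u_2` less than `n` -/
def dlt (n : ℕ) : Set (ℕ × ℕ) := {t | t.1 + t.2 < n}
/-- weight of a monomial in `e1, e2` at most `n - 2` -/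
def wtw (n : ℕ) : Set (ℕ × ℕ) := {t | t.1 + 2 * t.2 + 2 ≤ n}

lemma mem_wlt {n : ℕ} {t : ℕ × ℕ} : t ∈ wlt n ↔ t.1 + 2 * t.2 < n := Iff.rfl
lemma mem_dlt {n : ℕ} {t : ℕ × ℕ} : t ∈ dlt n ↔ t.1 + t.2 < n := Iff.rfl
lemma mem_wtw {n : ℕ} {t : ℕ × ℕ} : t ∈ wtw n ↔ t.1 + 2 * t.2 + 2 ≤ n := Iff.rfl

/-- The complete symmetric polynomials. -/
def hh : ℕ → Pol Λ
  | 0 => 1
  | 1 => e1
  | (k + 2) => e1 * hh (k + 1) - e2 * hh k

lemma x_hh (k : ℕ) : (X 0 - X 1 : Pol Λ) * hh k = X 0 ^ (k + 1) - X 1 ^ (k + 1) := by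
  induction k using Nat.strong_induction_on with
  | _ k ih =>
    match k with
    | 0 => simp [hh]
    | 1 => simp only [hh, e1]; ring
    | (k + 2) =>
      have h1 := ih (k + 1) (by omega)
      have h0 := ih k (by omega)
      simp only [hh]
      have : (X 0 - X 1 : Pol Λ) * (e1 * hh (k + 1) - e2 * hh k)
          = e1 * ((X 0 - X 1) * hh (k + 1)) - e2 * ((X 0 - X 1) * hh k) := by ring
      rw [this, h1, h0, e1, e2]
      ring

/-- `p = e1 ^ N + e2 r` with `r` of weight at most `N - 2`. -/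
def Lead (N : ℕ) (p : Pol Λ) : Prop := ∃ r ∈ mon (wtw N), p = e1 ^ N + e2 * r

lemma lead_mul {N M : ℕ} {p r : Pol Λ} (hp : Lead N p) (hr : Lead M r) : Lead (N + M) (p * r) := by
  obtain ⟨s, hs, rfl⟩ := hp
  obtain ⟨t, ht, rfl⟩ := hr
  refine ⟨s * e1 ^ M + e1 ^ N * t + e2 * s * t, ?_, ?_⟩
  · refine add_mem (add_mem ?_ ?_) ?_
    · have h1 : (e1 ^ M : Pol Λ) ∈ mon {(M, 0)} := by
        simpa using mem_mon (Λ := Λ) (T := {(M, 0)}) (a := M) (b := 0) rfl
      refine mon_mul ?_ hs h1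
      rintro ⟨a, b⟩ h2 ⟨c, d⟩ h3
      rw [Set.mem_singleton_iff, Prod.mk.injEq] at h3
      rw [mem_wtw] at *
      simp only [Prod.mk_add_mk] at *
      omega
    · have h1 : (e1 ^ N : Pol Λ) ∈ mon {(N, 0)} := by
        simpa using mem_mon (Λ := Λ) (T := {(N, 0)}) (a := N) (b := 0) rfl
      refine mon_mul ?_ h1 ht
      rintro ⟨a, b⟩ h2 ⟨c, d⟩ h3
      rw [Set.mem_singleton_iff, Prod.mk.injEq] at h2
      rw [mem_wtw] at *
      simp only [Prod.mk_add_mk] at *
      omega
    · have h1 : (e2 : Pol Λ) ∈ mon {(0, 1)} := by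
        simpa using mem_mon (Λ := Λ) (T := {(0, 1)}) (a := 0) (b := 1) rfl
      have h4 : e2 * s ∈ mon (Λ := Λ) {t | t.1 + 2 * t.2 ≤ N} := by
        refine mon_mul ?_ h1 hs
        rintro ⟨a, b⟩ h2 ⟨c, d⟩ h3
        rw [Set.mem_singleton_iff, Prod.mk.injEq] at h2
        rw [mem_wtw] at h3
        simp only [Prod.mk_add_mk, Set.mem_ofPred_eq] at *
        omega
      refine mon_mul ?_ h4 ht
      rintro ⟨a, b⟩ h2 ⟨c, d⟩ h3
      rw [mem_wtw] at *
      simp only [Prod.mk_add_mk, Set.mem_ofPred_eq] at *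
      omega
  · rw [pow_add]
    ring

lemma lead_one : Lead 0 (1 : Pol Λ) := ⟨0, zero_mem _, by simp⟩

lemma lead_pow {N : ℕ} {p : Pol Λ} (hp : Lead N p) (k : ℕ) : Lead (N * k) (p ^ k) := by
  induction k with
  | zero => simpa using lead_one
  | succ k ih =>
    rw [pow_succ, Nat.mul_succ]
    exact lead_mul ih hp

lemma lead_hh (k : ℕ) : Lead k (hh k : Pol Λ) := by
  induction k using Nat.strong_induction_on with
  | _ k ih =>
    match k with
    | 0 => exact lead_one
    | 1 => exact ⟨0, zero_mem _, by simp [hh]⟩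
    | (k + 2) =>
      obtain ⟨r1, h1, h1'⟩ := ih (k + 1) (by omega)
      obtain ⟨r0, h0, h0'⟩ := ih k (by omega)
      refine ⟨e1 * r1 - e1 ^ k - e2 * r0, ?_, ?_⟩
      · refine sub_mem (sub_mem ?_ ?_) ?_
        · have h2 : (e1 : Pol Λ) ∈ mon {(1, 0)} := by
            simpa using mem_mon (Λ := Λ) (T := {(1, 0)}) (a := 1) (b := 0) rfl
          refine mon_mul ?_ h2 h1
          rintro ⟨a, b⟩ h2 ⟨c, d⟩ h3
          rw [Set.mem_singleton_iff, Prod.mk.injEq] at h2
          rw [mem_wtw] at *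
          simp only [Prod.mk_add_mk] at *
          omega
        · have := mem_mon (Λ := Λ) (T := wtw (k + 2)) (a := k) (b := 0)
            (by rw [mem_wtw]; simp)
          simpa using this
        · have h2 : (e2 : Pol Λ) ∈ mon {(0, 1)} := by
            simpa using mem_mon (Λ := Λ) (T := {(0, 1)}) (a := 0) (b := 1) rfl
          refine mon_mul ?_ h2 h0
          rintro ⟨a, b⟩ h2 ⟨c, d⟩ h3
          rw [Set.mem_singleton_iff, Prod.mk.injEq] at h2
          rw [mem_wtw] at *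
          simp only [Prod.mk_add_mk] at *
          omega
      · simp only [hh]
        rw [h1', h0']
        ring

lemma lead_disc : Lead 2 ((X 0 - X 1) ^ 2 : Pol Λ) := by
  refine ⟨-4, ?_, ?_⟩
  · have := mem_mon (Λ := Λ) (T := wtw 2) (a := 0) (b := 0)
      (by rw [mem_wtw]; simp)
    have h2 := Submodule.smul_mem _ (-4 : Λ) this
    convert h2 using 1
    rw [MvPolynomial.smul_eq_C_mul]
    simp only [pow_zero, mul_one, map_neg]
    rw [map_ofNat]
  · rw [e1, e2]
    ring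

lemma lead_key (g m : ℕ) : Lead (2 * g + m) (((X 0 - X 1) ^ 2) ^ g * hh m : Pol Λ) :=
  lead_mul (lead_pow lead_disc g) (lead_hh m)

/-- Divided differences of polynomials of bounded degree. -/
lemma dd_mem {n : ℕ} {p : Pol Λ} (hp : p ∈ fmo (dlt (n + 1))) :
    ∃ d ∈ mon (wlt n), p - sw p = (X 0 - X 1) * d := by
  induction hp using Submodule.span_induction with
  | mem x hx =>
    obtain ⟨⟨i, j⟩, ht, rfl⟩ := hx
    rw [mem_dlt] at ht
    simp only at ht
    simp only [map_mul, map_pow, sw_X0, sw_X1]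
    rcases lt_trichotomy i j with hij | hij | hij
    · obtain ⟨k, rfl⟩ := Nat.exists_eq_add_of_lt hij
      refine ⟨-(hh k * e2 ^ i), ?_, ?_⟩
      · refine neg_mem ?_
        obtain ⟨r, hr, hk⟩ := lead_hh (Λ := Λ) k
        have h1 : hh k ∈ mon (Λ := Λ) (wlt (k + 1)) := by
          rw [hk]
          refine add_mem ?_ ?_
          · simpa using mem_mon (Λ := Λ) (T := wlt (k + 1)) (a := k) (b := 0)
              (by rw [mem_wlt]; simp)
          · have h2 : (e2 : Pol Λ) ∈ mon {(0, 1)} := by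
              simpa using mem_mon (Λ := Λ) (T := {(0, 1)}) (a := 0) (b := 1) rfl
            refine mon_mul ?_ h2 hr
            rintro ⟨a, b⟩ h2 ⟨c, d⟩ h3
            rw [Set.mem_singleton_iff, Prod.mk.injEq] at h2
            rw [mem_wtw] at h3
            rw [mem_wlt]
            simp only [Prod.mk_add_mk] at *
            omega
        have h3 : (e2 ^ i : Pol Λ) ∈ mon {(0, i)} := by
          simpa using mem_mon (Λ := Λ) (T := {(0, i)}) (a := 0) (b := i) rfl
        refine mon_mul ?_ h1 h3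
        rintro ⟨a, b⟩ h2 ⟨c, d⟩ h3
        rw [Set.mem_singleton_iff, Prod.mk.injEq] at h3
        rw [mem_wlt] at *
        simp only [Prod.mk_add_mk] at *
        omega
      · have := x_hh (Λ := Λ) k
        have h5 : (X 0 - X 1 : Pol Λ) * -(hh k * e2 ^ i) = -(((X 0 - X 1) * hh k) * e2 ^ i) := by
          ring
        rw [h5, this, e2]
        ring
    · subst hij
      exact ⟨0, zero_mem _, by ring⟩
    · obtain ⟨k, rfl⟩ := Nat.exists_eq_add_of_lt hij
      refine ⟨hh k * e2 ^ j, ?_, ?_⟩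
      · obtain ⟨r, hr, hk⟩ := lead_hh (Λ := Λ) k
        have h1 : hh k ∈ mon (Λ := Λ) (wlt (k + 1)) := by
          rw [hk]
          refine add_mem ?_ ?_
          · simpa using mem_mon (Λ := Λ) (T := wlt (k + 1)) (a := k) (b := 0)
              (by rw [mem_wlt]; simp)
          · have h2 : (e2 : Pol Λ) ∈ mon {(0, 1)} := by
              simpa using mem_mon (Λ := Λ) (T := {(0, 1)}) (a := 0) (b := 1) rfl
            refine mon_mul ?_ h2 hr
            rintro ⟨a, b⟩ h2 ⟨c, d⟩ h3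
            rw [Set.mem_singleton_iff, Prod.mk.injEq] at h2
            rw [mem_wtw] at h3
            rw [mem_wlt]
            simp only [Prod.mk_add_mk] at *
            omega
        have h3 : (e2 ^ j : Pol Λ) ∈ mon {(0, j)} := by
          simpa using mem_mon (Λ := Λ) (T := {(0, j)}) (a := 0) (b := j) rfl
        refine mon_mul ?_ h1 h3
        rintro ⟨a, b⟩ h2 ⟨c, d⟩ h3
        rw [Set.mem_singleton_iff, Prod.mk.injEq] at h3
        rw [mem_wlt] at *
        simp only [Prod.mk_add_mk] at *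
        omega
      · have := x_hh (Λ := Λ) k
        have h5 : (X 0 - X 1 : Pol Λ) * (hh k * e2 ^ j) = (((X 0 - X 1) * hh k) * e2 ^ j) := by
          ring
        rw [h5, this, e2]
        ring
  | zero => exact ⟨0, zero_mem _, by simp⟩
  | add x z _ _ hx hz =>
    obtain ⟨d, hd, h1⟩ := hx
    obtain ⟨d', hd', h1'⟩ := hz
    refine ⟨d + d', add_mem hd hd', ?_⟩
    rw [map_add, mul_add, ← h1, ← h1']
    ring
  | smul c x _ hx =>
    obtain ⟨d, hd, h1⟩ := hx
    refine ⟨c • d, Submodule.smul_mem _ _ hd, ?_⟩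
    rw [map_smul, ← smul_sub, h1, mul_smul_comm]

lemma exists_fmo (p : Pol Λ) : ∃ n, p ∈ fmo (dlt n) := by
  induction p using MvPolynomial.induction_on with
  | C a =>
    refine ⟨1, ?_⟩
    have := mem_fmo (Λ := Λ) (T := dlt 1) (a := 0) (b := 0) (by rw [mem_dlt]; simp)
    have h2 := Submodule.smul_mem _ a this
    convert h2 using 1
    rw [MvPolynomial.smul_eq_C_mul]
    simp
  | add p r hp hr =>
    obtain ⟨n, hn⟩ := hp
    obtain ⟨m, hm⟩ := hr
    refine ⟨max n m, add_mem ?_ ?_⟩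
    · refine Submodule.span_mono (Set.image_mono ?_) hn
      intro t ht
      rw [mem_dlt] at *
      exact lt_of_lt_of_le ht (le_max_left _ _)
    · refine Submodule.span_mono (Set.image_mono ?_) hm
      intro t ht
      rw [mem_dlt] at *
      exact lt_of_lt_of_le ht (le_max_right _ _)
  | mul_X p i hp =>
    obtain ⟨n, hn⟩ := hp
    refine ⟨n + 1, ?_⟩
    have h1 : (X i : Pol Λ) ∈ fmo (dlt 2) := by
      fin_cases i
      · simpa using mem_fmo (Λ := Λ) (T := dlt 2) (a := 1) (b := 0) (by rw [mem_dlt]; simp)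
      · simpa using mem_fmo (Λ := Λ) (T := dlt 2) (a := 0) (b := 1) (by rw [mem_dlt]; simp)
    refine fmo_mul ?_ hn h1
    rintro ⟨a, b⟩ h2 ⟨c, d⟩ h3
    rw [mem_dlt] at *
    simp only [Prod.mk_add_mk] at *
    omega

lemma x_ne [IsDomain Λ] : (X 0 - X 1 : Pol Λ) ≠ 0 := by
  intro h0
  have := sub_eq_zero.mp h0
  have h1 := MvPolynomial.X_injective this
  exact absurd h1 (by decide)

/-- A symmetric polynomial of degree `< n` is a combination of monomials of weight `< n`. -/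
lemma sym_mem [IsDomain Λ] {n : ℕ} {p : Pol Λ} (hs : sw p = p) (hp : p ∈ fmo (dlt n)) :
    p ∈ mon (wlt n) := by
  have h1 : X 0 * p ∈ fmo (Λ := Λ) (dlt (n + 1)) := by
    have h1 : (X 0 : Pol Λ) ∈ fmo (dlt 2) := by
      simpa using mem_fmo (Λ := Λ) (T := dlt 2) (a := 1) (b := 0) (by rw [mem_dlt]; simp)
    refine fmo_mul ?_ h1 hp
    rintro ⟨a, b⟩ h2 ⟨c, d⟩ h3
    rw [mem_dlt] at *
    simp only [Prod.mk_add_mk] at *
    omega
  obtain ⟨d, hd, h2⟩ := dd_mem h1
  have h3 : (X 0 - X 1) * p = (X 0 - X 1) * d := by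
    rw [← h2, map_mul, sw_X0, hs]
    ring
  rw [mul_left_cancel₀ x_ne h3]
  exact hd

section main

variable [IsDomain Λ]

/-- leading term of `Z(u_1)` for a monic one-variable polynomial -/
lemma pe_lead {Z : Polynomial Λ} {w : ℕ} (hZ : Z.Monic) (hw : Z.natDegree = w) (t : Pol Λ)
    (ht : t ∈ fmo (dlt 2)) : pe Z t - t ^ w ∈ fmo (dlt w) := by
  have hpow : ∀ i : ℕ, t ^ i ∈ fmo (Λ := Λ) (dlt (i + 1)) := by
    intro i
    induction i with
    | zero =>
      simpa using mem_fmo (Λ := Λ) (T := dlt 1) (a := 0) (b := 0) (by rw [mem_dlt]; simp)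
    | succ i ih =>
      rw [pow_succ]
      refine fmo_mul ?_ ih ht
      rintro ⟨a, b⟩ h2 ⟨c, d⟩ h3
      rw [mem_dlt] at *
      simp only [Prod.mk_add_mk] at *
      omega
  rw [pe, Polynomial.aeval_eq_sum_range, hw, Finset.sum_range_succ]
  have h1 : Z.coeff w = 1 := by rw [← hw]; exact hZ
  rw [h1, one_smul, add_sub_cancel_right]
  refine Submodule.sum_mem _ (fun i hi => Submodule.smul_mem _ _ ?_)
  rw [Finset.mem_range] at hi
  refine Submodule.span_mono (Set.image_mono ?_) (hpow i)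
  intro u hu
  rw [mem_dlt] at *
  omega

lemma dlt_mono {n m : ℕ} (h : n ≤ m) {p : Pol Λ} (hp : p ∈ fmo (dlt n)) : p ∈ fmo (dlt m) := by
  refine Submodule.span_mono (Set.image_mono ?_) hp
  intro t ht
  rw [mem_dlt] at *
  omega

lemma dlt_mul {n m N : ℕ} (h : n + m ≤ N + 1) {p r : Pol Λ} (hp : p ∈ fmo (dlt n))
    (hr : r ∈ fmo (dlt m)) : p * r ∈ fmo (dlt N) := by
  refine fmo_mul ?_ hp hr
  rintro ⟨a, b⟩ h2 ⟨c, d⟩ h3
  rw [mem_dlt] at *
  simp only [Prod.mk_add_mk] at *
  omega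

lemma x_dlt : (X 0 - X 1 : Pol Λ) ∈ fmo (dlt 2) := by
  have h1 : (X 0 : Pol Λ) ∈ fmo (dlt 2) := by
    simpa using mem_fmo (Λ := Λ) (T := dlt 2) (a := 1) (b := 0) (by rw [mem_dlt]; simp)
  have h2 : (X 1 : Pol Λ) ∈ fmo (dlt 2) := by
    simpa using mem_fmo (Λ := Λ) (T := dlt 2) (a := 0) (b := 1) (by rw [mem_dlt]; simp)
  exact sub_mem h1 h2

lemma c_dlt (c : Λ) : (C c : Pol Λ) ∈ fmo (dlt 1) := by
  have := mem_fmo (Λ := Λ) (T := dlt 1) (a := 0) (b := 0) (by rw [mem_dlt]; simp)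
  have h2 := Submodule.smul_mem _ c this
  convert h2 using 1
  rw [MvPolynomial.smul_eq_C_mul]
  simp

lemma pow_dlt {t : Pol Λ} (ht : t ∈ fmo (dlt 2)) (i : ℕ) : t ^ i ∈ fmo (dlt (i + 1)) := by
  induction i with
  | zero => simpa using c_dlt (1 : Λ)
  | succ i ih =>
    rw [pow_succ]
    exact dlt_mul (by omega) ih ht

lemma pow_shift (k : Λ) (g : ℕ) :
    (X 1 - X 0 + C k : Pol Λ) ^ g - (X 1 - X 0) ^ g ∈ fmo (Λ := Λ) (dlt g) := by
  have hx : (X 1 - X 0 : Pol Λ) ∈ fmo (dlt 2) := by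
    have := neg_mem (x_dlt (Λ := Λ))
    rwa [neg_sub] at this
  induction g with
  | zero => simp
  | succ g ih =>
    have : (X 1 - X 0 + C k : Pol Λ) ^ (g + 1) - (X 1 - X 0) ^ (g + 1)
        = (X 1 - X 0 + C k) * ((X 1 - X 0 + C k : Pol Λ) ^ g - (X 1 - X 0) ^ g)
          + C k * (X 1 - X 0) ^ g := by ring
    rw [this]
    refine add_mem ?_ ?_
    · exact dlt_mul (by omega) (add_mem hx (dlt_mono (by omega) (c_dlt k))) ih
    · exact dlt_mul (by omega) (c_dlt k) (pow_dlt hx g)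

/-- The product `q(x) q(k - x)` has leading term `± x^(2g)`. -/
lemma qq_lead {q : Polynomial Λ} {g : ℕ} (hq : q.Monic) (hg : q.natDegree = g) (k : Λ) :
    pe q (X 0 - X 1) * pe q (X 1 - X 0 + C k) - C ((-1) ^ g) * ((X 0 - X 1) ^ 2) ^ g
      ∈ fmo (Λ := Λ) (dlt (2 * g)) := by
  have h1 := pe_lead hq hg (X 0 - X 1) x_dlt
  have hx : (X 1 - X 0 : Pol Λ) ∈ fmo (dlt 2) := by
    have := neg_mem (x_dlt (Λ := Λ))
    rwa [neg_sub] at this
  have h2 := pe_lead hq hg (X 1 - X 0 + C k) (add_mem hx (dlt_mono (by omega) (c_dlt k)))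
  have h3 := add_mem h2 (pow_shift k g)
  set A := pe q (X 0 - X 1) with hA
  set B := pe q (X 1 - X 0 + C k) with hB
  have h4 : B - (X 1 - X 0) ^ g ∈ fmo (Λ := Λ) (dlt g) := by
    have : B - (X 1 - X 0) ^ g = B - (X 1 - X 0 + C k) ^ g +
        ((X 1 - X 0 + C k) ^ g - (X 1 - X 0) ^ g) := by ring
    rw [this]
    exact h3
  have h5 : A * B - C ((-1) ^ g) * ((X 0 - X 1) ^ 2) ^ g =
      (A - (X 0 - X 1) ^ g) * (B - (X 1 - X 0) ^ g) + (A - (X 0 - X 1) ^ g) * (X 1 - X 0) ^ g
        + (X 0 - X 1) ^ g * (B - (X 1 - X 0) ^ g) := by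
    have : (C ((-1) ^ g) : Pol Λ) * ((X 0 - X 1) ^ 2) ^ g = (X 0 - X 1) ^ g * (X 1 - X 0) ^ g := by
      rw [map_pow, map_neg, map_one, ← mul_pow, ← mul_pow]
      congr 1
      ring
    rw [this]
    ring
  rw [h5]
  refine add_mem (add_mem ?_ ?_) ?_
  · exact dlt_mul (by omega) h1 h4
  · exact dlt_mul (by omega) h1 (pow_dlt hx g)
  · exact dlt_mul (by omega) (pow_dlt x_dlt g) h4

/-- Symmetric polynomials are spanned by the basis monomials modulo the relations. -/
theorem span_main {q Z : Polynomial Λ} {g w : ℕ} (hq : q.Monic) (hg : q.natDegree = g)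
    (hZ : Z.Monic) (hw : Z.natDegree = w) (k : Λ) (J : Submodule Λ (Pol Λ))
    (hJ : ∀ s p, sw s = s → sw p = p → p ∈ J → s * p ∈ J)
    (hN : pe Z (X 0) * pe Z (X 1) ∈ J)
    (hQ : ∀ f d : Pol Λ, sw d = d →
      f * pe Z (X 0) * pe q (X 0 - X 1) * pe q (X 1 - X 0 + C k)
      - sw (f * pe Z (X 0) * pe q (X 0 - X 1) * pe q (X 1 - X 0 + C k))
      = (X 0 - X 1) * d → d ∈ J)
    {p : Pol Λ} (hp : sw p = p) :
    p ∈ mon {t | t.2 < w ∧ t.1 + t.2 + 1 < 2 * g + w} ⊔ J := by
  set B : Submodule Λ (Pol Λ) := mon {t | t.2 < w ∧ t.1 + t.2 + 1 < 2 * g + w} with hB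
  have hsym : ∀ a b : ℕ, sw (e1 ^ a * e2 ^ b : Pol Λ) = e1 ^ a * e2 ^ b := by
    intro a b
    simp
  have hsymm : ∀ (T : Set (ℕ × ℕ)) (r : Pol Λ), r ∈ mon T → sw r = r := by
    intro T r hr
    induction hr using Submodule.span_induction with
    | mem x hx => obtain ⟨t, _, rfl⟩ := hx; exact hsym _ _
    | zero => exact map_zero _
    | add x z _ _ hx hz => rw [map_add, hx, hz]
    | smul c x _ hx => rw [map_smul, hx]
  -- the relation with leading term `e2 ^ w`
  have hN2 : ∃ r ∈ mon (Λ := Λ) (wlt (2 * w)), pe Z (X 0) * pe Z (X 1) = e2 ^ w + r := by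
    refine ⟨pe Z (X 0) * pe Z (X 1) - e2 ^ w, ?_, by ring⟩
    have hx0 : (X 0 : Pol Λ) ∈ fmo (dlt 2) := by
      simpa using mem_fmo (Λ := Λ) (T := dlt 2) (a := 1) (b := 0) (by rw [mem_dlt]; simp)
    have hx1 : (X 1 : Pol Λ) ∈ fmo (dlt 2) := by
      simpa using mem_fmo (Λ := Λ) (T := dlt 2) (a := 0) (b := 1) (by rw [mem_dlt]; simp)
    apply sym_mem
    · rw [map_sub, map_mul, map_pow, sw_e2, sw_pe, sw_pe, sw_X0, sw_X1, mul_comm]
    · have h1 := pe_lead hZ hw (X 0) hx0
      have h2 := pe_lead hZ hw (X 1) hx1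
      have h3 : pe Z (X 0) * pe Z (X 1) - e2 ^ w =
          (pe Z (X 0) - X 0 ^ w) * (pe Z (X 1) - X 1 ^ w) + (pe Z (X 0) - X 0 ^ w) * X 1 ^ w
            + X 0 ^ w * (pe Z (X 1) - X 1 ^ w) := by
        rw [e2, mul_pow]
        ring
      rw [h3]
      refine add_mem (add_mem ?_ ?_) ?_
      · exact dlt_mul (by omega) h1 h2
      · exact dlt_mul (by omega) h1 (pow_dlt hx1 w)
      · exact dlt_mul (by omega) (pow_dlt hx0 w) h2
  -- the relations with leading terms `e1 ^ (2 g + w - 1 - b) e2 ^ b`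
  have hQ2 : ∀ b < w, ∃ Q ∈ J, sw Q = Q ∧ ∃ r ∈ mon (Λ := Λ) (wtw (2 * g + w - 1 - b)),
      ∃ r' ∈ mon (Λ := Λ) (wlt (b + w + 2 * g - 1)),
      e1 ^ (2 * g + w - 1 - b) * e2 ^ b = C ((-1) ^ g) * Q - e2 ^ (b + 1) * r - r' := by
    intro b hb
    obtain ⟨d, hd, hds⟩ := exists_dd
      (X 1 ^ b * pe Z (X 0) * pe q (X 0 - X 1) * pe q (X 1 - X 0 + C k))
    have hdJ := hQ _ d hds hd
    have hx0 : (X 0 : Pol Λ) ∈ fmo (dlt 2) := by
      simpa using mem_fmo (Λ := Λ) (T := dlt 2) (a := 1) (b := 0) (by rw [mem_dlt]; simp)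
    have hx1 : (X 1 : Pol Λ) ∈ fmo (dlt 2) := by
      simpa using mem_fmo (Λ := Λ) (T := dlt 2) (a := 0) (b := 1) (by rw [mem_dlt]; simp)
    -- remainder
    set T : Pol Λ := X 1 ^ b * pe Z (X 0) * pe q (X 0 - X 1) * pe q (X 1 - X 0 + C k) with hT
    set M : Pol Λ := C ((-1) ^ g) * (((X 0 - X 1) ^ 2) ^ g * (X 1 ^ b * X 0 ^ w)) with hM
    have hrem : T - M ∈ fmo (Λ := Λ) (dlt ((b + w + 2 * g - 1) + 1)) := by
      have h1 := pe_lead hZ hw (X 0) hx0
      have h2 := qq_lead hq hg k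
      have h3 : T - M = (X 1 ^ b * (pe Z (X 0) - X 0 ^ w)) *
          (pe q (X 0 - X 1) * pe q (X 1 - X 0 + C k)) + (X 1 ^ b * X 0 ^ w) *
          (pe q (X 0 - X 1) * pe q (X 1 - X 0 + C k) - C ((-1) ^ g) * ((X 0 - X 1) ^ 2) ^ g) := by
        rw [hT, hM]
        ring
      have h4 : pe q (X 0 - X 1) * pe q (X 1 - X 0 + C k) ∈ fmo (Λ := Λ) (dlt (2 * g + 1)) := by
        have h5 : C ((-1) ^ g) * ((X 0 - X 1) ^ 2) ^ g ∈ fmo (Λ := Λ) (dlt (2 * g + 1)) := by
          rw [← pow_mul]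
          exact dlt_mul (by omega) (c_dlt _) (pow_dlt x_dlt (2 * g))
        have := add_mem (dlt_mono (by omega) h2) h5
        rwa [sub_add_cancel] at this
      rw [h3]
      refine add_mem ?_ ?_
      · exact dlt_mul (n := b + w) (m := 2 * g + 1) (by omega)
          (dlt_mul (n := b + 1) (m := w) (by omega) (pow_dlt hx1 b) h1) h4
      · exact dlt_mul (n := b + w + 1) (m := 2 * g) (by omega)
          (dlt_mul (n := b + 1) (m := w + 1) (by omega) (pow_dlt hx1 b) (pow_dlt hx0 w)) h2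
    obtain ⟨r', hr', hr'2⟩ := dd_mem hrem
    obtain ⟨r, hr, hr2⟩ := lead_key (Λ := Λ) g (w - 1 - b)
    have hidx : 2 * g + (w - 1 - b) = 2 * g + w - 1 - b := by omega
    rw [hidx] at hr hr2
    refine ⟨d, hdJ, hds, r, hr, C ((-1) ^ g) * r', ?_, ?_⟩
    · rw [← MvPolynomial.smul_eq_C_mul]
      exact Submodule.smul_mem _ _ hr'
    · -- compare
      have hMd : M - sw M = (X 0 - X 1) * (C ((-1) ^ g) *
          (e2 ^ b * (((X 0 - X 1) ^ 2) ^ g * hh (w - 1 - b)))) := by
        have hx := x_hh (Λ := Λ) (w - 1 - b)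
        have hwb : w - 1 - b + 1 = w - b := by omega
        rw [hwb] at hx
        have hsplit : (X 1 ^ b * X 0 ^ w - X 0 ^ b * X 1 ^ w : Pol Λ)
            = e2 ^ b * (X 0 ^ (w - b) - X 1 ^ (w - b)) := by
          have hw' : w = b + (w - b) := by omega
          rw [e2, mul_pow]
          conv_lhs => rw [hw', pow_add, pow_add]
          ring
        have hswM : sw M = C ((-1) ^ g) * (((X 0 - X 1) ^ 2) ^ g * (X 0 ^ b * X 1 ^ w)) := by
          rw [hM]
          simp only [map_mul (sw : Pol Λ →ₐ[Λ] Pol Λ), map_pow (sw : Pol Λ →ₐ[Λ] Pol Λ),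
            map_sub (sw : Pol Λ →ₐ[Λ] Pol Λ), sw_X0, sw_X1, sw_C]
          ring
        rw [hswM, hM]
        have h6 : C ((-1) ^ g) * (((X 0 - X 1) ^ 2) ^ g * (X 1 ^ b * X 0 ^ w)) -
            C ((-1) ^ g) * (((X 0 - X 1) ^ 2) ^ g * (X 0 ^ b * X 1 ^ w))
            = C ((-1) ^ g) * ((X 0 - X 1) ^ 2) ^ g *
              (X 1 ^ b * X 0 ^ w - X 0 ^ b * X 1 ^ w : Pol Λ) := by ring
        rw [h6, hsplit, ← hx]
        ring
      have hkey : (X 0 - X 1) * d = (X 0 - X 1) * (C ((-1) ^ g) *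
          (e2 ^ b * (((X 0 - X 1) ^ 2) ^ g * hh (w - 1 - b))) + r') := by
        rw [mul_add, ← hMd, ← hr'2, ← hd, map_sub]
        ring
      have hd2 := mul_left_cancel₀ x_ne hkey
      have hone : (C ((-1) ^ g) : Pol Λ) * C ((-1) ^ g) = 1 := by
        rw [← C_mul, ← mul_pow]
        simp
      rw [hd2, hr2]
      linear_combination (-(e2 ^ b * (e1 ^ (2 * g + w - 1 - b) + e2 * r))) * hone
  -- the induction
  have hmain : ∀ n a b : ℕ, a + 2 * b = n → (e1 ^ a * e2 ^ b : Pol Λ) ∈ B ⊔ J := by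
    intro n
    induction n using Nat.strong_induction_on with
    | _ n ih =>
      have hlow : ∀ r : Pol Λ, r ∈ mon (wlt n) → r ∈ B ⊔ J := by
        intro r hr
        induction hr using Submodule.span_induction with
        | mem x hx =>
          obtain ⟨⟨a, b⟩, ht, rfl⟩ := hx
          rw [mem_wlt] at ht
          exact ih _ ht a b rfl
        | zero => exact zero_mem _
        | add x z _ _ hx hz => exact add_mem hx hz
        | smul c x _ hx => exact Submodule.smul_mem _ _ hx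
      intro a
      induction a using Nat.strong_induction_on with
      | _ a iha =>
        intro b hab
        by_cases hbw : b < w
        · by_cases hab2 : a + b + 1 < 2 * g + w
          · exact Submodule.mem_sup_left (mem_mon ⟨hbw, hab2⟩)
          · obtain ⟨Q, hQJ, hQs, r, hr, r', hr', hQr⟩ := hQ2 b hbw
            set m := 2 * g + w - 1 - b with hm
            have ham : m ≤ a := by omega
            have hsplit : (e1 ^ a * e2 ^ b : Pol Λ) = e1 ^ (a - m) * (e1 ^ m * e2 ^ b) := by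
              rw [← mul_assoc, ← pow_add, Nat.sub_add_cancel ham]
            rw [hsplit, hQr, mul_sub, mul_sub]
            refine sub_mem (sub_mem ?_ ?_) ?_
            · apply Submodule.mem_sup_right
              rw [← mul_assoc]
              refine hJ _ _ ?_ hQs hQJ
              simp
            · -- monomials of weight at most n with smaller first exponent
              have h7 : e1 ^ (a - m) * (e2 ^ (b + 1) * r) ∈
                  mon (Λ := Λ) {t | t.1 + 2 * t.2 < n ∨ (t.1 + 2 * t.2 = n ∧ t.1 < a)} := by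
                rw [← mul_assoc]
                have h8 : (e1 ^ (a - m) * e2 ^ (b + 1) : Pol Λ) ∈ mon {(a - m, b + 1)} :=
                  mem_mon (Λ := Λ) (T := {(a - m, b + 1)}) rfl
                refine mon_mul ?_ h8 hr
                rintro ⟨x, y⟩ h2 ⟨c, d⟩ h3
                rw [Set.mem_singleton_iff, Prod.mk.injEq] at h2
                rw [mem_wtw] at h3
                simp only [Prod.mk_add_mk, Set.mem_ofPred_eq] at *
                omega
              have h9 : ∀ r : Pol Λ, r ∈ mon (Λ := Λ)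
                  {t | t.1 + 2 * t.2 < n ∨ (t.1 + 2 * t.2 = n ∧ t.1 < a)} → r ∈ B ⊔ J := by
                intro r hr
                induction hr using Submodule.span_induction with
                | mem x hx =>
                  obtain ⟨⟨c, d⟩, ht, rfl⟩ := hx
                  simp only [Set.mem_ofPred_eq] at ht
                  rcases ht with ht | ⟨ht, hc⟩
                  · exact ih _ ht c d rfl
                  · exact iha c hc d ht
                | zero => exact zero_mem _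
                | add x z _ _ hx hz => exact add_mem hx hz
                | smul c x _ hx => exact Submodule.smul_mem _ _ hx
              exact h9 _ h7
            · apply hlow
              have h8 : (e1 ^ (a - m) : Pol Λ) ∈ mon {(a - m, 0)} := by
                simpa using mem_mon (Λ := Λ) (T := {(a - m, 0)}) (a := a - m) (b := 0) rfl
              refine mon_mul ?_ h8 hr'
              rintro ⟨x, y⟩ h2 ⟨c, d⟩ h3
              rw [Set.mem_singleton_iff, Prod.mk.injEq] at h2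
              rw [mem_wlt] at *
              simp only [Prod.mk_add_mk] at *
              omega
        · obtain ⟨r, hr, hNr⟩ := hN2
          have hbw' : w ≤ b := not_lt.mp hbw
          have hsplit : (e1 ^ a * e2 ^ b : Pol Λ) = (e1 ^ a * e2 ^ (b - w)) *
              (pe Z (X 0) * pe Z (X 1)) - (e1 ^ a * e2 ^ (b - w)) * r := by
            rw [hNr]
            have : (e2 : Pol Λ) ^ b = e2 ^ (b - w) * e2 ^ w := by
              rw [← pow_add, Nat.sub_add_cancel hbw']
            rw [this]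
            ring
          rw [hsplit]
          refine sub_mem ?_ ?_
          · apply Submodule.mem_sup_right
            refine hJ _ _ (hsym _ _) ?_ hN
            rw [map_mul, sw_pe, sw_pe, sw_X0, sw_X1, mul_comm]
          · apply hlow
            have h8 : (e1 ^ a * e2 ^ (b - w) : Pol Λ) ∈ mon {(a, b - w)} :=
              mem_mon (Λ := Λ) (T := {(a, b - w)}) rfl
            refine mon_mul ?_ h8 hr
            rintro ⟨x, y⟩ h2 ⟨c, d⟩ h3
            rw [Set.mem_singleton_iff, Prod.mk.injEq] at h2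
            rw [mem_wlt] at *
            simp only [Prod.mk_add_mk] at *
            omega
  have hall : ∀ (n : ℕ) (r : Pol Λ), r ∈ mon (wlt n) → r ∈ B ⊔ J := by
    intro n r hr
    induction hr using Submodule.span_induction with
    | mem x hx =>
      obtain ⟨⟨a, b⟩, ht, rfl⟩ := hx
      exact hmain _ a b rfl
    | zero => exact zero_mem _
    | add x z _ _ hx hz => exact add_mem hx hz
    | smul c x _ hx => exact Submodule.smul_mem _ _ hx
  obtain ⟨n, hn⟩ := exists_fmo p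
  exact hall n p (sym_mem hp hn)

end main

end Pool.CB55c57e
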