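import Pool.Agent.Lib.MP_55c57e_al.Eval
import Pool.Agent.Lib.MP_55c57e_al.Span

set_option autoImplicit false

noncomputable section

namespace Pool.CB55c57e

open MvPolynomial

variable {Λ : Type} [CommRing Λ]

/-- Value of a polynomial at the point `(P, Q)`. -/
def pt (P Q : Λ) : Pol Λ →ₐ[Λ] Λ := MvPolynomial.aeval ![P, Q]

@[simp] lemma pt_X0 (P Q : Λ) : pt P Q (X 0) = P := by simp [pt]
@[simp] lemma pt_X1 (P Q : Λ) : pt P Q (X 1) = Q := by simp [pt]
@[simp] lemma pt_C (P Q c : Λ) : pt P Q (C c) = c := by simp [pt]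

lemma pt_pe (P Q : Λ) (Z : Polynomial Λ) (a : Pol Λ) : pt P Q (pe Z a) = Z.eval (pt P Q a) := by
  rw [pe, ← Polynomial.aeval_algHom_apply, Polynomial.coe_aeval_eq_eval]

/-- `sy` as a linear map. -/
def syl (h : Λ) : Pol Λ →ₗ[Λ] Diff h where
  toFun := sy h
  map_add' p r := by simp only [sy, map_add, y_add]
  map_smul' c p := by
    simp only [sy, y, RingHom.id_apply]
    rw [SkewMonoidAlgebra.smul_single]
    congr 1
    rw [MvPolynomial.smul_eq_C_mul, map_mul, Algebra.smul_def,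
      IsScalarTower.algebraMap_apply Λ (Pol Λ) (Loc h)]
    rfl

lemma syl_apply (h : Λ) (p : Pol Λ) : syl h p = sy h p := rfl

section

variable {h : Λ} {e : ℤ} {q Zp Zm Z : Polynomial Λ}

/-- Polynomials whose multiplication operators lie in the ideal. -/
def jj (h : Λ) (e : ℤ) (q Zp Zm : Polynomial Λ) : Submodule Λ (Pol Λ) :=
  (idl h (gset h e q Zp Zm) e).comap (syl h)

lemma mem_jj {p : Pol Λ} : p ∈ jj h e q Zp Zm ↔ sy h p ∈ idl h (gset h e q Zp Zm) e := Iff.rfl

lemma sy_mul_idl {s : Pol Λ} (hs : sw s = s) {a : Diff h}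
    (ha : a ∈ idl h (gset h e q Zp Zm) e) : sy h s * a ∈ idl h (gset h e q Zp Zm) e := by
  induction ha using Submodule.span_induction with
  | mem x hx =>
    obtain ⟨n, hn, F, hF, E, hE, rfl⟩ := hx
    rw [← mul_assoc]
    refine Submodule.subset_span ⟨n, hn, sy h s * F, ?_, E, hE, rfl⟩
    have := part_mul (sy_part h _ e s hs) hF
    simpa using this
  | zero => rw [mul_zero]; exact zero_mem _
  | add x z _ _ hx hz => rw [mul_add]; exact add_mem hx hz
  | smul c x _ hx =>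
    have : sy h s * (c • x) = c • (sy h s * x) := by
      rw [smul_eq, smul_eq, ← mul_assoc, ← mul_assoc, sy_mul, sy_mul, mul_comm]
    rw [this]
    exact Submodule.smul_mem _ _ hx

lemma jj_mul {s p : Pol Λ} (hs : sw s = s) (hp : p ∈ jj h e q Zp Zm) :
    s * p ∈ jj h e q Zp Zm := by
  rw [mem_jj] at *
  rw [← sy_mul]
  exact sy_mul_idl hs hp

lemma jj_norm (he : e * e = 1)
    (hZ : ∀ a : Pol Λ, pe Z a = pe Zm a * pe Zp (a - C ((e : Λ) * h))) :
    pe Z (X 0) * pe Z (X 1) ∈ jj h e q Zp Zm := by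
  rw [mem_jj, ← Dm_Dp h e Zp Zm Z hZ]
  exact Submodule.subset_span ⟨2, two_pos, _, Dm_part he, _, Dp_part he, rfl⟩

lemma jj_rel (he : e * e = 1)
    (hZ : ∀ a : Pol Λ, pe Z a = pe Zm a * pe Zp (a - C ((e : Λ) * h))) (f d : Pol Λ)
    (hd : f * pe Z (X 0) * pe q (X 0 - X 1) * pe q (X 1 - X 0 + C ((e : Λ) * h))
      - sw (f * pe Z (X 0) * pe q (X 0 - X 1) * pe q (X 1 - X 0 + C ((e : Λ) * h)))
      = (X 0 - X 1) * d) : d ∈ jj h e q Zp Zm := by
  rw [mem_jj, relation h e q Zp Zm Z hZ f d hd]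
  exact sub_mem
    (Submodule.subset_span ⟨1, one_pos, _, lower_part he _, _, raise_part he _, rfl⟩)
    (Submodule.subset_span ⟨1, one_pos, _, lower_part he _, _, raise_part he _, rfl⟩)

/-- The evaluation of rational functions at a point with no vanishing denominators. -/
def evp [IsDomain Λ] (h : Λ) (P Q : Λ) (hPQ : ∀ j : ℤ, P - Q ≠ (j : Λ) * h) :
    Loc h →+* FractionRing Λ :=
  IsLocalization.lift (M := Den h)
    (g := (algebraMap Λ (FractionRing Λ)).comp (pt P Q).toRingHom) (by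
      have hle : Den h ≤ (nonZeroDivisors (FractionRing Λ)).comap
          ((algebraMap Λ (FractionRing Λ)).comp (pt P Q).toRingHom) := by
        rw [Den, Submonoid.closure_le]
        rintro p ⟨j, rfl | rfl⟩
        · have : (algebraMap Λ (FractionRing Λ)) (P - Q - j * h) ≠ 0 := by
            rw [Ne, FaithfulSMul.algebraMap_eq_zero_iff]
            exact sub_ne_zero.mpr (hPQ j)
          simpa using this
        · have : (algebraMap Λ (FractionRing Λ)) (Q - P - j * h) ≠ 0 := by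
            rw [Ne, FaithfulSMul.algebraMap_eq_zero_iff]
            intro h0
            apply hPQ (-j)
            push_cast
            linear_combination -h0
          simpa using this
      intro y
      have := hle y.2
      exact isUnit_iff_ne_zero.mpr (mem_nonZeroDivisors_iff_ne_zero.mp this))

lemma evp_io [IsDomain Λ] (h : Λ) (P Q : Λ) (hPQ : ∀ j : ℤ, P - Q ≠ (j : Λ) * h) (p : Pol Λ) :
    evp h P Q hPQ (io h p) = algebraMap Λ (FractionRing Λ) (pt P Q p) :=
  IsLocalization.lift_eq _ p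

/-- Elements of the ideal which are polynomials vanish at the special points. -/
theorem pt_zero [IsDomain Λ] (he : e * e = 1) {P Q : Λ} (hPQ : ∀ j : ℤ, P - Q ≠ (j : Λ) * h)
    (HA : Zm.eval P = 0 ∨ Zp.eval (P - (e : Λ) * h) = 0)
    (HB : (Zm.eval Q = 0 ∨ Zp.eval (Q - (e : Λ) * h) = 0) ∨
      (q.eval (Q - P) = 0 ∨ q.eval (P - Q + (e : Λ) * h) = 0))
    {p : Pol Λ} (hp : p ∈ jj h e q Zp Zm) : pt P Q p = 0 := by
  have h1 := vanish (ev := evp h P Q hPQ) (q := q) (Zp := Zp) (Zm := Zm) he ?_ ?_ (mem_jj.mp hp)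
  · have h2 : (sy h p).coeff 1 = io h p := by
      rw [sy, y, SkewMonoidAlgebra.coeff_single]
      exact Finsupp.single_eq_same
    rw [h2, evp_io, FaithfulSMul.algebraMap_eq_zero_iff] at h1
    exact h1
  · rw [evp_io, evp_io, FaithfulSMul.algebraMap_eq_zero_iff,
      FaithfulSMul.algebraMap_eq_zero_iff, pt_pe, pt_pe]
    simpa using HA
  · simp only [evp_io, FaithfulSMul.algebraMap_eq_zero_iff, pt_pe, map_sub, map_add, pt_X0, pt_X1,
      pt_C]
    exact HB

end

/-- Index set of the monomial basis. -/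
abbrev Bi (g w : ℕ) : Type := {t : Fin (2 * g + w) × Fin w // (t.1 : ℕ) + t.2 + 1 < 2 * g + w}

section final

variable [IsDomain Λ] {h : Λ} {e : ℤ} {q q₀ Zp Zm Z : Polynomial Λ} {g w : ℕ} {c : Λ}

/-- The class of a symmetric polynomial in the Cartan subquotient. -/
def cls (h : Λ) (e : ℤ) (q Zp Zm : Polynomial Λ) (p : Pol Λ) (hp : sw p = p) :
    Cartan h (gset h e q Zp Zm) e :=
  Submodule.Quotient.mk ⟨sy h p, sy_part h _ e p hp⟩

omit [IsDomain Λ] in
lemma cls_eq_zero {p : Pol Λ} (hp : sw p = p) :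
    cls h e q Zp Zm p hp = 0 ↔ p ∈ jj h e q Zp Zm := by
  rw [cls, Submodule.Quotient.mk_eq_zero]
  rfl

/-- The basis monomials in the Cartan subquotient. -/
def vec (h : Λ) (e : ℤ) (q Zp Zm : Polynomial Λ) (g w : ℕ) (t : Bi g w) :
    Cartan h (gset h e q Zp Zm) e :=
  cls h e q Zp Zm (e1 ^ (t.1.1 : ℕ) * e2 ^ (t.1.2 : ℕ)) (by simp)

omit [IsDomain Λ] in
lemma sum_vec (c : Bi g w → Λ) (hs : sw (∑ t, c t • (e1 ^ (t.1.1 : ℕ) * e2 ^ (t.1.2 : ℕ) : Pol Λ))
      = ∑ t, c t • (e1 ^ (t.1.1 : ℕ) * e2 ^ (t.1.2 : ℕ))) :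
    ∑ t, c t • vec h e q Zp Zm g w t
      = cls h e q Zp Zm (∑ t, c t • (e1 ^ (t.1.1 : ℕ) * e2 ^ (t.1.2 : ℕ))) hs := by
  simp only [vec, cls]
  simp only [← Submodule.Quotient.mk_smul]
  rw [← Submodule.mkQ_apply]
  simp only [← Submodule.mkQ_apply]
  rw [← map_sum]
  congr 1
  apply Subtype.ext
  rw [AddSubmonoidClass.coe_finsetSum]
  simp only [SetLike.mk_smul_mk]
  rw [← syl_apply, map_sum]
  simp only [map_smul, syl_apply]

omit [IsDomain Λ] in
lemma sw_sum (c : Bi g w → Λ) : sw (∑ t, c t • (e1 ^ (t.1.1 : ℕ) * e2 ^ (t.1.2 : ℕ) : Pol Λ))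
      = ∑ t, c t • (e1 ^ (t.1.1 : ℕ) * e2 ^ (t.1.2 : ℕ)) := by
  rw [map_sum]
  simp

/-- Every symmetric polynomial is a combination of basis monomials modulo the ideal. -/
lemma exists_comb (he : e * e = 1)
    (hZ : ∀ a : Pol Λ, pe Z a = pe Zm a * pe Zp (a - C ((e : Λ) * h)))
    (hc : c * c = 1) (hq : q = Polynomial.C c * q₀) (hq0 : q₀.Monic) (hg : q₀.natDegree = g)
    (hZm : Z.Monic) (hw : Z.natDegree = w) {p : Pol Λ} (hp : sw p = p) :
    ∃ c : Bi g w → Λ, p - ∑ t, c t • (e1 ^ (t.1.1 : ℕ) * e2 ^ (t.1.2 : ℕ)) ∈ jj h e q Zp Zm := by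
  have hpeq : ∀ a : Pol Λ, pe q a = C c * pe q₀ a := by
    intro a
    rw [hq, pe, pe, map_mul, Polynomial.aeval_C]
    rfl
  have hmem := span_main hq0 hg hZm hw ((e : Λ) * h) (jj h e q Zp Zm)
    (fun s p hs _ hp => jj_mul hs hp) (jj_norm he hZ) (by
      intro f d _ hd
      apply jj_rel he hZ f d
      rw [← hd, hpeq, hpeq]
      have hcc : (C c : Pol Λ) * C c = 1 := by rw [← C_mul, hc, C_1]
      have h1 : f * pe Z (X 0) * (C c * pe q₀ (X 0 - X 1)) *
          (C c * pe q₀ (X 1 - X 0 + C ((e : Λ) * h)))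
          = f * pe Z (X 0) * pe q₀ (X 0 - X 1) * pe q₀ (X 1 - X 0 + C ((e : Λ) * h)) := by
        linear_combination (f * pe Z (X 0) * pe q₀ (X 0 - X 1) *
          pe q₀ (X 1 - X 0 + C ((e : Λ) * h))) * hcc
      rw [h1]) hp
  obtain ⟨b, hb, j, hj, rfl⟩ := Submodule.mem_sup.mp hmem
  have hb' : ∃ c : Bi g w → Λ, b = ∑ t, c t • (e1 ^ (t.1.1 : ℕ) * e2 ^ (t.1.2 : ℕ)) := by
    clear hp hmem
    induction hb using Submodule.span_induction with
    | mem x hx =>
      obtain ⟨⟨i, k⟩, ht, rfl⟩ := hx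
      simp only [Set.mem_ofPred_eq] at ht
      classical
      refine ⟨Pi.single ⟨(⟨i, by omega⟩, ⟨k, ht.1⟩), ht.2⟩ 1, ?_⟩
      rw [Finset.sum_eq_single ⟨(⟨i, by omega⟩, ⟨k, ht.1⟩), ht.2⟩]
      · simp
      · intro t _ hne
        rw [Pi.single_eq_of_ne hne, zero_smul]
      · intro hne
        exact absurd (Finset.mem_univ _) hne
    | zero => exact ⟨0, by simp⟩
    | add x z _ _ hx hz =>
      obtain ⟨c1, rfl⟩ := hx
      obtain ⟨c2, rfl⟩ := hz
      refine ⟨c1 + c2, ?_⟩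
      simp only [Pi.add_apply, add_smul, Finset.sum_add_distrib]
    | smul r x _ hx =>
      obtain ⟨c1, rfl⟩ := hx
      refine ⟨r • c1, ?_⟩
      rw [Finset.smul_sum]
      simp only [Pi.smul_apply, smul_assoc]
  obtain ⟨c', rfl⟩ := hb'
  exact ⟨c', by rw [add_sub_cancel_left]; exact hj⟩

theorem main_free (he : e * e = 1)
    (hZ : ∀ a : Pol Λ, pe Z a = pe Zm a * pe Zp (a - C ((e : Λ) * h)))
    (hc : c * c = 1) (hq : q = Polynomial.C c * q₀) (hq0 : q₀.Monic) (hg : q₀.natDegree = g)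
    (hZm : Z.Monic) (hw : Z.natDegree = w)
    {I : Type} [Fintype I] (P Q : I → Λ) (hPQ : ∀ i, ∀ j : ℤ, P i - Q i ≠ (j : Λ) * h)
    (HA : ∀ i, Zm.eval (P i) = 0 ∨ Zp.eval (P i - (e : Λ) * h) = 0)
    (HB : ∀ i, (Zm.eval (Q i) = 0 ∨ Zp.eval (Q i - (e : Λ) * h) = 0) ∨
      (q.eval (Q i - P i) = 0 ∨ q.eval (P i - Q i + (e : Λ) * h) = 0))
    (hinj : Function.Injective (fun i => P i + Q i))
    (hcard : Fintype.card I = Fintype.card (Bi g w)) :
    Module.Free Λ (Cartan h (gset h e q Zp Zm) e) ∧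
      Module.Finite Λ (Cartan h (gset h e q Zp Zm) e) ∧
      Module.finrank Λ (Cartan h (gset h e q Zp Zm) e) = Fintype.card (Bi g w) := by
  classical
  have hzero : ∀ i, ∀ p ∈ jj h e q Zp Zm, pt (P i) (Q i) p = 0 := fun i p hp =>
    pt_zero he (hPQ i) (HA i) (HB i) hp
  -- spanning
  have hspan : ⊤ ≤ Submodule.span Λ (Set.range (vec h e q Zp Zm g w)) := by
    rintro x -
    obtain ⟨⟨a, ha⟩, rfl⟩ := Submodule.Quotient.mk_surjective _ x
    obtain ⟨p, hp, hap⟩ := degree_zero hZ he ha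
    obtain ⟨d, hd⟩ := exists_comb he hZ hc hq hq0 hg hZm hw hp
    have h1 : (Submodule.Quotient.mk ⟨a, ha⟩ : Cartan h (gset h e q Zp Zm) e)
        = ∑ t, d t • vec h e q Zp Zm g w t := by
      rw [sum_vec d (sw_sum d), cls, Submodule.Quotient.eq]
      have h2 : (((⟨a, ha⟩ : part h (gset h e q Zp Zm) e 0) -
          ⟨sy h (∑ t, d t • (e1 ^ (t.1.1 : ℕ) * e2 ^ (t.1.2 : ℕ))),
            sy_part h _ e _ (sw_sum d)⟩ : part h (gset h e q Zp Zm) e 0) : Diff h)
          = (a - sy h p) + sy h (p - ∑ t, d t • (e1 ^ (t.1.1 : ℕ) * e2 ^ (t.1.2 : ℕ))) := by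
        have h3 : sy h (p - ∑ t, d t • (e1 ^ (t.1.1 : ℕ) * e2 ^ (t.1.2 : ℕ)))
            = sy h p - sy h (∑ t, d t • (e1 ^ (t.1.1 : ℕ) * e2 ^ (t.1.2 : ℕ))) :=
          map_sub (syl h) p _
        rw [h3, AddSubgroupClass.coe_sub]
        abel
      rw [idl0, Submodule.submoduleOf, Submodule.mem_comap, Submodule.subtype_apply, h2]
      exact add_mem hap hd
    rw [h1]
    exact Submodule.sum_mem _ (fun t _ => Submodule.smul_mem _ _
      (Submodule.subset_span ⟨t, rfl⟩))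
  -- the matrix of values
  let M : Matrix I (Bi g w) Λ := fun i t =>
    pt (P i) (Q i) (e1 ^ (t.1.1 : ℕ) * e2 ^ (t.1.2 : ℕ))
  have hMval : ∀ (d : Bi g w → Λ) (i : I),
      pt (P i) (Q i) (∑ t, d t • (e1 ^ (t.1.1 : ℕ) * e2 ^ (t.1.2 : ℕ))) = (M.mulVec d) i := by
    intro d i
    rw [map_sum, Matrix.mulVec, dotProduct]
    refine Finset.sum_congr rfl (fun t _ => ?_)
    rw [map_smul, smul_eq_mul, mul_comm]
  -- interpolation
  let Lp : I → Pol Λ := fun i0 => ∏ i ∈ Finset.univ.erase i0, (e1 - C (P i + Q i))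
  have hLs : ∀ i0, sw (Lp i0) = Lp i0 := by
    intro i0
    simp only [Lp, map_prod, map_sub, sw_e1, sw_C]
  have hLv : ∀ i0 i, pt (P i) (Q i) (Lp i0)
      = ∏ i' ∈ Finset.univ.erase i0, ((P i + Q i) - (P i' + Q i')) := by
    intro i0 i
    simp only [Lp, map_prod, map_sub, pt_C, e1, map_add, pt_X0, pt_X1]
  choose d hd using fun i0 => exists_comb he hZ hc hq hq0 hg hZm hw (hLs i0)
  let D : Matrix (Bi g w) I Λ := fun t i0 => d i0 t
  let dg : I → Λ := fun i => ∏ i' ∈ Finset.univ.erase i, ((P i + Q i) - (P i' + Q i'))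
  have hdg : ∀ i, dg i ≠ 0 := by
    intro i
    apply Finset.prod_ne_zero_iff.mpr
    intro i' hi'
    rw [Finset.mem_erase] at hi'
    rw [sub_ne_zero]
    intro h0
    exact hi'.1 (hinj h0).symm
  have hMD : M * D = Matrix.diagonal dg := by
    ext i i0
    have h1 := hzero i _ (hd i0)
    rw [map_sub, hMval, sub_eq_zero, hLv] at h1
    have h2 : (M * D) i i0 = (M.mulVec (d i0)) i := rfl
    rw [h2, ← h1, Matrix.diagonal_apply]
    split_ifs with h3
    · subst h3; rfl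
    · apply Finset.prod_eq_zero (i := i)
      · rw [Finset.mem_erase]
        exact ⟨h3, Finset.mem_univ _⟩
      · ring
  obtain ⟨eqv⟩ := Fintype.card_eq.mp hcard
  have hdet : (M.submatrix id eqv).det ≠ 0 := by
    intro h0
    have h1 : (M.submatrix id eqv) * (D.submatrix eqv id) = Matrix.diagonal dg := by
      rw [Matrix.submatrix_mul_equiv, hMD]
      rfl
    have h2 := congrArg Matrix.det h1
    rw [Matrix.det_mul, h0, zero_mul, Matrix.det_diagonal] at h2
    exact Finset.prod_ne_zero_iff.mpr (fun i _ => hdg i) h2.symm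
  have hli : LinearIndependent Λ (vec h e q Zp Zm g w) := by
    rw [Fintype.linearIndependent_iff]
    intro d0 hd0
    rw [sum_vec d0 (sw_sum d0), cls_eq_zero] at hd0
    have h1 : ∀ i, (M.mulVec d0) i = 0 := by
      intro i
      rw [← hMval]
      exact hzero i _ hd0
    have h2 : (M.submatrix id eqv).mulVec (d0 ∘ eqv) = 0 := by
      ext i
      rw [Matrix.submatrix_mulVec_equiv]
      simp only [Function.comp_apply, id, Pi.zero_apply]
      convert h1 i using 2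
      ext t
      simp
    have h3 := Matrix.eq_zero_of_mulVec_eq_zero hdet h2
    intro t
    have := congrFun h3 (eqv.symm t)
    simpa using this
  let b := Module.Basis.mk hli hspan
  exact ⟨Module.Free.of_basis b, Module.Finite.of_basis b, Module.finrank_eq_card_basis b⟩

end final

end Pool.CB55c57e
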