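import Pool.Agent.Lib.MP_55c57e_al.Gen

set_option autoImplicit false

noncomputable section

namespace Pool.CB55c57e

open MvPolynomial

variable {Λ : Type} [CommRing Λ]

section identities

variable (h : Λ) (e : ℤ) (q Zp Zm Z : Polynomial Λ)

lemma e_xi_neg : io h (X 0 - X 1 + C ((e : Λ) * h)) * xi h (e * (-1)) = 1 := by
  have := e_xi h e (-1)
  simpa using this

lemma e_xi_pos : io h (X 0 - X 1 - C ((e : Λ) * h)) * xi h (e * 1) = 1 := by
  have := e_xi h e 1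
  simpa using this

/-- explicit form of the first diagonal factor -/
lemma be_tau_al (hZ : ∀ a : Pol Λ, pe Z a = pe Zm a * pe Zp (a - C ((e : Λ) * h))) :
    be h q Zm * tau h (e • (-1, 0)) (al h q Zp) =
      io h (pe Z (X 0) * pe q (X 0 - X 1) * pe q (X 1 - X 0 + C ((e : Λ) * h)))
        * (- (xi h 0 * xi h (e * 1))) := by
  rw [be, al, map_mul (tau h (e • (-1, 0))), tau_e_io, map_neg, tau_e_xi0, hZ]
  have h1 : (X 1 - (X 0 - C ((e : Λ) * h)) : Pol Λ) = X 1 - X 0 + C ((e : Λ) * h) := by ring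
  simp only [map_mul (sh ((e : Λ) * h) (-1, 0)), sh_pe, map_sub (sh ((e : Λ) * h) (-1, 0)),
    sa0, sa1, h1, map_mul (io h)]
  norm_num
  ring

/-- explicit form of the second diagonal factor -/
lemma al_tau_be (hZ : ∀ a : Pol Λ, pe Z a = pe Zm a * pe Zp (a - C ((e : Λ) * h))) :
    al h q Zp * tau h (e • (1, 0)) (be h q Zm) =
      io h (pe Z (X 0 + C ((e : Λ) * h)) * pe q (X 1 - X 0) * pe q (X 0 - X 1 + C ((e : Λ) * h)))
        * (- (xi h 0 * xi h (e * (-1)))) := by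
  rw [be, al, map_mul (tau h (e • (1, 0))), tau_e_io, tau_e_xi0, hZ]
  have h1 : (X 0 + C ((e : Λ) * h) - X 1 : Pol Λ) = X 0 - X 1 + C ((e : Λ) * h) := by ring
  have h2 : (X 0 + C ((e : Λ) * h) - C ((e : Λ) * h) : Pol Λ) = X 0 := by ring
  simp only [map_mul (sh ((e : Λ) * h) (1, 0)), sh_pe, map_sub (sh ((e : Λ) * h) (1, 0)),
    sb0, sb1, h1, h2, map_mul (io h)]
  norm_num
  ring

/-- Reordering of a raising and a lowering operator. -/
lemma reorder (hZ : ∀ a : Pol Λ, pe Z a = pe Zm a * pe Zp (a - C ((e : Λ) * h)))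
    (f g : Pol Λ) : ∃ s : Pol Λ, sw s = s ∧
      raise h e q Zp g * lower h e q Zm f =
        lower h e q Zm (sw g * sh ((e : Λ) * h) (0, 1) f) * raise h e q Zp 1 + sy h s := by
  set k : Λ := (e : Λ) * h with hk
  obtain ⟨d, hd, hds⟩ := exists_dd (f * pe Z (X 0))
  obtain ⟨d', hd', hds'⟩ := exists_dd
    (g * pe q (X 1 - X 0) * pe q (X 0 - X 1 + C k) * sh k (1, 0) d)
  refine ⟨-d', by rw [map_neg, hds'], ?_⟩
  rw [raise_lower, lower_raise]
  rw [be_tau_al h e q Zp Zm Z hZ, al_tau_be h e q Zp Zm Z hZ]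
  rw [op_zero, op_zero]
  simp only [map_one, mul_one, ← hk]
  set A1 : Loc h := io h (g * sh k (1, 0) f) *
    (io h (pe Z (X 0 + C k) * pe q (X 1 - X 0) * pe q (X 0 - X 1 + C k))
        * (- (xi h 0 * xi h (e * (-1))))) with hA1
  set A2 : Loc h := io h (sw g * sh k (0, 1) f) *
    (io h (pe Z (X 0) * pe q (X 0 - X 1) * pe q (X 1 - X 0 + C k))
        * (- (xi h 0 * xi h e))) with hA2
  have hsA2 : swl h A2 = io h (g * sh k (1, 0) (sw f)) *
      (io h (pe Z (X 1) * pe q (X 1 - X 0) * pe q (X 0 - X 1 + C k))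
        * (- (xi h 0 * xi h (e * (-1))))) := by
    rw [hA2]
    simp only [map_mul (swl h), swl_io, map_mul (sw : Pol Λ →ₐ[Λ] Pol Λ), sw_sw, sw_sh,
      Prod.swap_prod_mk, sw_pe, map_neg, swl_xi, map_sub (sw : Pol Λ →ₐ[Λ] Pol Λ),
      map_add (sw : Pol Λ →ₐ[Λ] Pol Λ), sw_X0, sw_X1, sw_C]
    norm_num
  have hcore : A1 - swl h A2 = - (xi h 0) * io h
      (g * pe q (X 1 - X 0) * pe q (X 0 - X 1 + C k) * sh k (1, 0) d) := by
    have h1 : sh k (1, 0) f * pe Z (X 0 + C k) - sh k (1, 0) (sw f) * pe Z (X 1)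
        = (X 0 - X 1 + C k) * sh k (1, 0) d := by
      have := congrArg (sh k (1, 0)) hd
      simp only [map_sub (sh k (1, 0)), map_mul (sh k (1, 0)),
        map_mul (sw : Pol Λ →ₐ[Λ] Pol Λ), sh_pe, sw_pe, sw_X0, sb0, sb1] at this
      rw [this]
      ring
    have h1' := congrArg (io h) h1
    have h2 := e_xi_neg h e
    rw [← hk] at h2
    rw [hsA2, hA1]
    simp only [map_mul (io h), map_sub (io h)] at h1' ⊢
    linear_combination (-(io h g * io h (pe q (X 1 - X 0)) * io h (pe q (X 0 - X 1 + C k))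
      * xi h 0 * xi h (e * (-1)))) * h1' - (io h g * io h (pe q (X 1 - X 0)) *
      io h (pe q (X 0 - X 1 + C k)) * xi h 0 * io h (sh k (1, 0) d)) * h2
  have hcore' := congrArg (swl h) hcore
  simp only [map_sub (swl h), swl_swl, map_mul (swl h), map_neg (swl h), swl_xi, swl_io,
    neg_neg] at hcore'
  have hfin : A1 + swl h A1 = (A2 + swl h A2) + io h (-d') := by
    have h3 := congrArg (io h) hd'
    simp only [map_mul (sw : Pol Λ →ₐ[Λ] Pol Λ), sw_pe, map_sub (sw : Pol Λ →ₐ[Λ] Pol Λ),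
      map_add (sw : Pol Λ →ₐ[Λ] Pol Λ), sw_X0, sw_X1, sw_C] at h3 hcore'
    simp only [map_mul (io h), map_sub (io h), map_neg] at h3 hcore hcore' ⊢
    have h4 := io_x_xi h
    simp only [map_sub (io h)] at h4
    norm_num at hcore'
    linear_combination hcore + hcore' - xi h 0 * h3 - (io h d') * h4
  rw [hfin, y_add]
  simp only [sy]
  abel

lemma Dp_lower (hZ : ∀ a : Pol Λ, pe Z a = pe Zm a * pe Zp (a - C ((e : Λ) * h)))
    (f : Pol Λ) : Dp h e Zp * lower h e q Zm f =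
      raise h e q Zp (pe Z (X 1 + C ((e : Λ) * h)) * sh ((e : Λ) * h) (1, 1) (sw f)) := by
  have h0 : (e • ((1, 1) : ℤ × ℤ) + e • (-1, 0)) = e • (0, 1) := by ext <;> simp
  have h1 : (e • ((1, 1) : ℤ × ℤ) + e • ((-1, 0) : ℤ × ℤ).swap) = e • (1, 0) := by ext <;> simp
  have h2 : (e • ((1, 0) : ℤ × ℤ).swap) = e • (0, 1) := by ext <;> simp
  have h3 : (X 1 + C ((e : Λ) * h) - C ((e : Λ) * h) : Pol Λ) = X 1 := by ring
  have h4 : (X 1 + C ((e : Λ) * h) - (X 0 + C ((e : Λ) * h)) : Pol Λ) = X 1 - X 0 := by ring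
  have h5 : (X 0 + C ((e : Λ) * h) - (X 1 + C ((e : Λ) * h)) : Pol Λ) = X 0 - X 1 := by ring
  have h6 : (X 0 + C ((e : Λ) * h) - C ((e : Λ) * h) : Pol Λ) = X 0 := by ring
  rw [Dp, lower, raise, op, op, mul_add, y_mul, y_mul, h0, h1, h2, add_comm, be, al]
  congr 2
  · simp only [map_mul (swl h), map_mul (tau h (e • (1, 1))), swl_io, tau_e_io, swl_xi, map_neg,
      tau_e_xi0, neg_zero, map_mul (sw : Pol Λ →ₐ[Λ] Pol Λ), sw_pe,
      map_sub (sw : Pol Λ →ₐ[Λ] Pol Λ), sw_X0, sw_X1,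
      map_mul (sh ((e : Λ) * h) (1, 1)), sh_pe, map_sub (sh ((e : Λ) * h) (1, 1)), sd0, sd1,
      hZ, h3, h4, map_mul (io h)]
    norm_num
    ring
  · simp only [map_mul (swl h), map_mul (tau h (e • (1, 1))), swl_io, tau_e_io, swl_xi, map_neg,
      tau_e_xi0, neg_zero, map_mul (sw : Pol Λ →ₐ[Λ] Pol Λ), sw_pe, sw_sh, sw_sw,
      Prod.swap_prod_mk, map_add (sw : Pol Λ →ₐ[Λ] Pol Λ), sw_C,
      map_sub (sw : Pol Λ →ₐ[Λ] Pol Λ), sw_X0, sw_X1,
      map_mul (sh ((e : Λ) * h) (1, 1)), sh_pe, map_sub (sh ((e : Λ) * h) (1, 1)), sd0, sd1,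
      hZ, h5, h6, map_mul (io h)]
    norm_num
    ring

lemma raise_Dm (hZ : ∀ a : Pol Λ, pe Z a = pe Zm a * pe Zp (a - C ((e : Λ) * h)))
    (g : Pol Λ) : raise h e q Zp g * Dm h e Zm =
      lower h e q Zm (sw g * pe Z (X 1 + C ((e : Λ) * h))) := by
  have h0 : (e • ((1, 0) : ℤ × ℤ) + e • (-1, -1)) = e • (0, -1) := by ext <;> simp
  have h1 : (e • ((1, 0) : ℤ × ℤ).swap + e • ((-1, -1) : ℤ × ℤ)) = e • (-1, 0) := by
    ext <;> simp
  have h2 : (e • ((-1, 0) : ℤ × ℤ).swap) = e • (0, -1) := by ext <;> simp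
  have h3 : (X 1 + C ((e : Λ) * h) - C ((e : Λ) * h) : Pol Λ) = X 1 := by ring
  have h6 : (X 0 + C ((e : Λ) * h) - C ((e : Λ) * h) : Pol Λ) = X 0 := by ring
  rw [Dm, lower, raise, op, op, add_mul, y_mul, y_mul, h0, h1, h2, add_comm, be, al]
  have h7 : e • ((1, 0) : ℤ × ℤ).swap = e • (0, 1) := by ext <;> simp
  rw [h7]
  congr 2
  · simp only [map_mul (swl h), map_mul (tau h (e • (0, 1))), swl_io, tau_e_io, swl_xi, map_neg,
      neg_zero, map_mul (sw : Pol Λ →ₐ[Λ] Pol Λ), sw_pe,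
      map_sub (sw : Pol Λ →ₐ[Λ] Pol Λ), sw_X0, sw_X1,
      map_mul (sh ((e : Λ) * h) (0, 1)), sh_pe, sc0, sc1,
      hZ, h3, map_mul (io h)]
    ring
  · simp only [map_mul (swl h), map_mul (tau h (e • (1, 0))), swl_io, tau_e_io, swl_xi, map_neg,
      neg_zero, map_mul (sw : Pol Λ →ₐ[Λ] Pol Λ), sw_pe, sw_sw,
      map_add (sw : Pol Λ →ₐ[Λ] Pol Λ), sw_C,
      map_sub (sw : Pol Λ →ₐ[Λ] Pol Λ), sw_X0, sw_X1,
      map_mul (sh ((e : Λ) * h) (1, 0)), sh_pe, sb0, sb1,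
      hZ, h6, map_mul (io h)]
    ring

lemma Dp_Dm (hZ : ∀ a : Pol Λ, pe Z a = pe Zm a * pe Zp (a - C ((e : Λ) * h))) :
    Dp h e Zp * Dm h e Zm =
      sy h (pe Z (X 0 + C ((e : Λ) * h)) * pe Z (X 1 + C ((e : Λ) * h))) := by
  have h0 : (e • ((1, 1) : ℤ × ℤ) + e • (-1, -1)) = 0 := by ext <;> simp
  have h3 : (X 1 + C ((e : Λ) * h) - C ((e : Λ) * h) : Pol Λ) = X 1 := by ring
  have h6 : (X 0 + C ((e : Λ) * h) - C ((e : Λ) * h) : Pol Λ) = X 0 := by ring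
  rw [Dp, Dm, y_mul, h0, sy]
  congr 1
  simp only [map_mul (tau h (e • (1, 1))), tau_e_io, map_mul (sh ((e : Λ) * h) (1, 1)), sh_pe,
    sd0, sd1, hZ, h3, h6,
    map_mul (io h)]
  ring

lemma Dm_Dp (hZ : ∀ a : Pol Λ, pe Z a = pe Zm a * pe Zp (a - C ((e : Λ) * h))) :
    Dm h e Zm * Dp h e Zp = sy h (pe Z (X 0) * pe Z (X 1)) := by
  have h0 : (e • ((-1, -1) : ℤ × ℤ) + e • (1, 1)) = 0 := by ext <;> simp
  rw [Dp, Dm, y_mul, h0, sy]
  congr 1
  simp only [map_mul (tau h (e • (-1, -1))), tau_e_io, map_mul (sh ((e : Λ) * h) (-1, -1)), sh_pe,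
    se0, se1, hZ,
    map_mul (io h)]
  ring

lemma sy_Dm (s : Pol Λ) :
    sy h s * Dm h e Zm = Dm h e Zm * sy h (sh ((e : Λ) * h) (1, 1) s) := by
  rw [Dm, sy, sy, y_mul, y_mul, zero_add, add_zero, tau_zero, tau_e_io, sh_sh]
  have : ((-1, -1) + (1, 1) : ℤ × ℤ) = 0 := by rfl
  rw [this, sh_zero, mul_comm]

lemma sw_sh11 (k : Λ) (s : Pol Λ) (hs : sw s = s) : sw (sh k (1, 1) s) = sh k (1, 1) s := by
  rw [sw_sh, hs]
  rfl

/-- Relation in the Cartan subquotient. -/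
lemma relation (hZ : ∀ a : Pol Λ, pe Z a = pe Zm a * pe Zp (a - C ((e : Λ) * h)))
    (f d : Pol Λ)
    (hd : f * pe Z (X 0) * pe q (X 0 - X 1) * pe q (X 1 - X 0 + C ((e : Λ) * h))
      - sw (f * pe Z (X 0) * pe q (X 0 - X 1) * pe q (X 1 - X 0 + C ((e : Λ) * h)))
      = (X 0 - X 1) * d) :
    sy h d = lower h e q Zm f * raise h e q Zp (X 1 + C ((e : Λ) * h))
      - lower h e q Zm (f * X 0) * raise h e q Zp 1 := by
  set k : Λ := (e : Λ) * h with hk
  have h2 := e_xi_pos h e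
  rw [← hk] at h2
  rw [lower_raise, lower_raise, be_tau_al h e q Zp Zm Z hZ]
  simp only [← hk]
  have hc : (sh k (-1, 0)) (sw (X 1 + C k)) = X 0 := by
    simp
  have hc' : (sh k (-1, 0)) (X 1 + C k) = X 1 + C k := by
    simp only [map_add, sa1, sh_C]
  rw [hc, hc', op_zero, op_zero]
  simp only [map_one, mul_one] at h2 ⊢
  have key : io h (f * (X 1 + C k)) *
      (io h (pe Z (X 0) * pe q (X 0 - X 1) * pe q (X 1 - X 0 + C k))
        * (- (xi h 0 * xi h e)))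
      = io h (f * X 0) *
      (io h (pe Z (X 0) * pe q (X 0 - X 1) * pe q (X 1 - X 0 + C k))
        * (- (xi h 0 * xi h e))) +
        xi h 0 * io h (f * pe Z (X 0) * pe q (X 0 - X 1) * pe q (X 1 - X 0 + C k)) := by
    simp only [map_mul (io h), map_sub (io h), map_add (io h)] at h2 ⊢
    linear_combination (io h f * io h (pe Z (X 0)) * io h (pe q (X 0 - X 1)) *
      io h (pe q (X 1 - X 0 + C k)) * xi h 0) * h2
  rw [key]
  set A : Loc h := io h (f * X 0) *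
      (io h (pe Z (X 0) * pe q (X 0 - X 1) * pe q (X 1 - X 0 + C k))
        * (- (xi h 0 * xi h e))) with hA
  set W : Pol Λ := f * pe Z (X 0) * pe q (X 0 - X 1) * pe q (X 1 - X 0 + C k) with hW
  have h5 : A + xi h 0 * io h W + swl h (A + xi h 0 * io h W) = (A + swl h A) + io h d := by
    clear_value A W
    rw [map_add (swl h), map_mul (swl h), swl_xi, swl_io]
    have h3 := congrArg (io h) hd
    have h4 := io_x_xi h
    rw [map_mul (io h), map_sub (io h)] at h3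
    rw [neg_zero]
    linear_combination xi h 0 * h3 + io h d * h4
  rw [h5, y_add]
  simp only [sy]
  abel

end identities

end Pool.CB55c57e
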