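import Pool.Agent.Lib.MP_55c57e_al.Rel

set_option autoImplicit false

noncomputable section

namespace Pool.CB55c57e

open MvPolynomial

variable {Λ : Type} [CommRing Λ]

lemma gen_mem (h : Λ) (S : Set (Diff h)) (a : Diff h) (ha : a ∈ S) : a ∈ algOf h S :=
  Subring.subset_closure (Or.inr ha)

lemma part_mul {h : Λ} {S : Set (Diff h)} {c n m : ℤ} {a b : Diff h} (ha : a ∈ part h S c n)
    (hb : b ∈ part h S c m) : a * b ∈ part h S c (n + m) := by
  classical
  refine ⟨mul_mem ha.1 hb.1, fun l hl => ?_⟩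
  by_contra hne
  apply hl
  rw [SkewMonoidAlgebra.coeff_mul, SkewMonoidAlgebra.sum_def']
  apply Finset.sum_eq_zero
  intro l1 h1
  rw [SkewMonoidAlgebra.sum_def']
  apply Finset.sum_eq_zero
  intro l2 h2
  rw [SkewMonoidAlgebra.mem_support_iff] at h1 h2
  have e1 := ha.2 l1 h1
  have e2 := hb.2 l2 h2
  rw [if_neg]
  rintro rfl
  apply hne
  rw [toAdd_mul, Prod.fst_add, Prod.snd_add, ← e1, ← e2]
  ring

lemma y_homog {h : Λ} {S : Set (Diff h)} {c n : ℤ} {l : ℤ × ℤ} {r : Loc h}
    (hn : c * (l.1 + l.2) = n) : ∀ l' : Multiplicative (ℤ × ℤ), (y h l r).coeff l' ≠ 0 →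
    c * (l'.toAdd.1 + l'.toAdd.2) = n := by
  classical
  intro l' h'
  rw [y, SkewMonoidAlgebra.coeff_single_apply] at h'
  split_ifs at h' with h1
  · rw [← h1]; exact hn
  · exact absurd rfl h'

lemma sy_part (h : Λ) (S : Set (Diff h)) (c : ℤ) (p : Pol Λ) (hp : sw p = p) :
    sy h p ∈ part h S c 0 :=
  ⟨sy_mem h S p hp, y_homog (S := S) (by simp)⟩

/-- Projection to degree zero. -/
def pi0 (h : Λ) (c : ℤ) : Diff h →+ Diff h where
  toFun a := ⟨a.coeff.filter (fun l => c * (l.toAdd.1 + l.toAdd.2) = 0)⟩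
  map_zero' := by
    classical
    ext l
    simp [Finsupp.filter_apply]
  map_add' a b := by
    classical
    ext l
    simp only [SkewMonoidAlgebra.coeff_add, Finsupp.filter_apply, Finsupp.add_apply]
    split_ifs <;> simp

lemma pi0_zero {h : Λ} {S : Set (Diff h)} {c n : ℤ} {a : Diff h} (ha : a ∈ part h S c n)
    (hn : n ≠ 0) : pi0 h c a = 0 := by
  classical
  ext l
  simp only [pi0, AddMonoidHom.coe_mk, ZeroHom.coe_mk, SkewMonoidAlgebra.coeff_zero,
    Finsupp.coe_zero, Pi.zero_apply]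
  rw [Finsupp.filter_apply]
  split_ifs with h1
  · by_contra h2
    exact hn ((ha.2 l h2).symm.trans h1)
  · rfl

lemma pi0_self {h : Λ} {S : Set (Diff h)} {c : ℤ} {a : Diff h} (ha : a ∈ part h S c 0) :
    pi0 h c a = a := by
  classical
  ext l
  simp only [pi0, AddMonoidHom.coe_mk, ZeroHom.coe_mk]
  rw [Finsupp.filter_apply]
  split_ifs with h1
  · rfl
  · by_contra h2
    exact h1 (ha.2 l (fun h3 => h2 h3.symm))

section triangular

variable (h : Λ) (e : ℤ) (q Zp Zm Z : Polynomial Λ)

/-- The generators besides symmetric polynomials. -/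
def gset : Set (Diff h) :=
  Set.range (raise h e q Zp) ∪ Set.range (lower h e q Zm) ∪ {Dp h e Zp, Dm h e Zm}

/-- The part generated by raising operators. -/
def algp : Subring (Diff h) :=
  Subring.closure (symSet h ∪ (Set.range (raise h e q Zp) ∪ {Dp h e Zp}))

/-- The part generated by lowering operators. -/
def algm : Subring (Diff h) :=
  Subring.closure (symSet h ∪ (Set.range (lower h e q Zm) ∪ {Dm h e Zm}))

/-- Sums of products of lowering and raising parts. -/
def uu : AddSubgroup (Diff h) :=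
  AddSubgroup.closure {x | ∃ a ∈ algm h e q Zm, ∃ b ∈ algp h e q Zp, x = a * b}

variable {h e q Zp Zm Z}

lemma mul_mem_uu {a b : Diff h} (ha : a ∈ algm h e q Zm) (hb : b ∈ algp h e q Zp) :
    a * b ∈ uu h e q Zp Zm := AddSubgroup.subset_closure ⟨a, ha, b, hb, rfl⟩

lemma algp_le_uu {b : Diff h} (hb : b ∈ algp h e q Zp) : b ∈ uu h e q Zp Zm := by
  simpa using mul_mem_uu (one_mem (algm h e q Zm)) hb

lemma algm_le_uu {a : Diff h} (ha : a ∈ algm h e q Zm) : a ∈ uu h e q Zp Zm := by
  simpa using mul_mem_uu ha (one_mem (algp h e q Zp))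

lemma uu_mul {u b : Diff h} (hu : u ∈ uu h e q Zp Zm) (hb : b ∈ algp h e q Zp) :
    u * b ∈ uu h e q Zp Zm := by
  induction hu using AddSubgroup.closure_induction with
  | mem x hx =>
    obtain ⟨a, ha, b', hb', rfl⟩ := hx
    rw [mul_assoc]
    exact mul_mem_uu ha (mul_mem hb' hb)
  | zero => rw [zero_mul]; exact zero_mem _
  | add x z _ _ hx hz => rw [add_mul]; exact add_mem hx hz
  | neg x _ hx => rw [neg_mul]; exact neg_mem hx

lemma mul_uu {u a : Diff h} (ha : a ∈ algm h e q Zm) (hu : u ∈ uu h e q Zp Zm) :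
    a * u ∈ uu h e q Zp Zm := by
  induction hu using AddSubgroup.closure_induction with
  | mem x hx =>
    obtain ⟨a', ha', b', hb', rfl⟩ := hx
    rw [← mul_assoc]
    exact mul_mem_uu (mul_mem ha ha') hb'
  | zero => rw [mul_zero]; exact zero_mem _
  | add x z _ _ hx hz => rw [mul_add]; exact add_mem hx hz
  | neg x _ hx => rw [mul_neg]; exact neg_mem hx

lemma sy_algp {p : Pol Λ} (hp : sw p = p) : sy h p ∈ algp h e q Zp :=
  Subring.subset_closure (Or.inl ⟨p, hp, rfl⟩)

lemma sy_algm {p : Pol Λ} (hp : sw p = p) : sy h p ∈ algm h e q Zm :=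
  Subring.subset_closure (Or.inl ⟨p, hp, rfl⟩)

lemma raise_algp (f : Pol Λ) : raise h e q Zp f ∈ algp h e q Zp :=
  Subring.subset_closure (Or.inr (Or.inl ⟨f, rfl⟩))

lemma Dp_algp : Dp h e Zp ∈ algp h e q Zp :=
  Subring.subset_closure (Or.inr (Or.inr rfl))

lemma lower_algm (f : Pol Λ) : lower h e q Zm f ∈ algm h e q Zm :=
  Subring.subset_closure (Or.inr (Or.inl ⟨f, rfl⟩))

lemma Dm_algm : Dm h e Zm ∈ algm h e q Zm :=
  Subring.subset_closure (Or.inr (Or.inr rfl))

lemma word_mul (hZ : ∀ a : Pol Λ, pe Z a = pe Zm a * pe Zp (a - C ((e : Λ) * h)))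
    {x : Diff h}
    (hx : x ∈ Submonoid.closure (symSet h ∪ (Set.range (raise h e q Zp) ∪ {Dp h e Zp}))) :
    (∀ f, x * lower h e q Zm f ∈ uu h e q Zp Zm) ∧ x * Dm h e Zm ∈ uu h e q Zp Zm := by
  induction hx using Submonoid.closure_induction_right with
  | one =>
    refine ⟨fun f => ?_, ?_⟩
    · rw [one_mul]; exact algm_le_uu (lower_algm f)
    · rw [one_mul]; exact algm_le_uu Dm_algm
  | mul_right x hx s hs ih =>
    have hxp : x ∈ algp h e q Zp := by
      have : Submonoid.closure (symSet h ∪ (Set.range (raise h e q Zp) ∪ {Dp h e Zp}))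
          ≤ (algp h e q Zp).toSubmonoid := by
        rw [Submonoid.closure_le]
        exact Subring.subset_closure
      exact this hx
    rcases hs with ⟨p, hp, rfl⟩ | ⟨g, rfl⟩ | hs
    · refine ⟨fun f => ?_, ?_⟩
      · rw [mul_assoc, sy_mul_lower h e q Zm p f hp]
        exact ih.1 _
      · rw [mul_assoc, sy_Dm, ← mul_assoc]
        exact uu_mul ih.2 (sy_algp (sw_sh11 _ _ hp))
    · refine ⟨fun f => ?_, ?_⟩
      · obtain ⟨s, hs, hs'⟩ := reorder h e q Zp Zm Z hZ f g
        rw [mul_assoc, hs', mul_add, ← mul_assoc]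
        exact add_mem (uu_mul (ih.1 _) (raise_algp 1)) (algp_le_uu (mul_mem hxp (sy_algp hs)))
      · rw [mul_assoc, raise_Dm h e q Zp Zm Z hZ]
        exact ih.1 _
    · rw [Set.mem_singleton_iff] at hs
      subst hs
      refine ⟨fun f => ?_, ?_⟩
      · rw [mul_assoc, Dp_lower h e q Zp Zm Z hZ]
        exact algp_le_uu (mul_mem hxp (raise_algp _))
      · rw [mul_assoc, Dp_Dm h e Zp Zm Z hZ]
        refine algp_le_uu (mul_mem hxp (sy_algp ?_))
        simp [map_mul, mul_comm]

lemma algp_mul (hZ : ∀ a : Pol Λ, pe Z a = pe Zm a * pe Zp (a - C ((e : Λ) * h)))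
    {x : Diff h} (hx : x ∈ algp h e q Zp) :
    (∀ f, x * lower h e q Zm f ∈ uu h e q Zp Zm) ∧ x * Dm h e Zm ∈ uu h e q Zp Zm := by
  rw [algp, Subring.mem_closure_iff] at hx
  induction hx using AddSubgroup.closure_induction with
  | mem x hx => exact word_mul hZ hx
  | zero => simp
  | add x z _ _ hx hz =>
    refine ⟨fun f => ?_, ?_⟩
    · rw [add_mul]; exact add_mem (hx.1 f) (hz.1 f)
    · rw [add_mul]; exact add_mem hx.2 hz.2
  | neg x _ hx =>
    refine ⟨fun f => ?_, ?_⟩
    · rw [neg_mul]; exact neg_mem (hx.1 f)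
    · rw [neg_mul]; exact neg_mem hx.2

lemma uu_mul_lower (hZ : ∀ a : Pol Λ, pe Z a = pe Zm a * pe Zp (a - C ((e : Λ) * h)))
    {u : Diff h} (hu : u ∈ uu h e q Zp Zm) :
    (∀ f, u * lower h e q Zm f ∈ uu h e q Zp Zm) ∧ u * Dm h e Zm ∈ uu h e q Zp Zm := by
  induction hu using AddSubgroup.closure_induction with
  | mem x hx =>
    obtain ⟨a, ha, b, hb, rfl⟩ := hx
    have := algp_mul hZ hb
    refine ⟨fun f => ?_, ?_⟩
    · rw [mul_assoc]; exact mul_uu ha (this.1 f)
    · rw [mul_assoc]; exact mul_uu ha this.2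
  | zero => simp
  | add x z _ _ hx hz =>
    refine ⟨fun f => ?_, ?_⟩
    · rw [add_mul]; exact add_mem (hx.1 f) (hz.1 f)
    · rw [add_mul]; exact add_mem hx.2 hz.2
  | neg x _ hx =>
    refine ⟨fun f => ?_, ?_⟩
    · rw [neg_mul]; exact neg_mem (hx.1 f)
    · rw [neg_mul]; exact neg_mem hx.2

/-- Triangular decomposition. -/
theorem alg_le_uu (hZ : ∀ a : Pol Λ, pe Z a = pe Zm a * pe Zp (a - C ((e : Λ) * h)))
    {a : Diff h} (ha : a ∈ algOf h (gset h e q Zp Zm)) : a ∈ uu h e q Zp Zm := by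
  have key : ∀ u ∈ uu h e q Zp Zm, u * a ∈ uu h e q Zp Zm := by
    induction ha using Subring.closure_induction with
    | mem x hx =>
      intro u hu
      rcases hx with ⟨p, hp, rfl⟩ | (⟨f, rfl⟩ | ⟨f, rfl⟩) | hx
      · exact uu_mul hu (sy_algp hp)
      · exact uu_mul hu (raise_algp f)
      · exact (uu_mul_lower hZ hu).1 f
      · rcases hx with hx | hx
        · subst hx
          exact uu_mul hu Dp_algp
        · rw [Set.mem_singleton_iff] at hx
          subst hx
          exact (uu_mul_lower hZ hu).2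
    | zero => intro u _; rw [mul_zero]; exact zero_mem _
    | one => intro u hu; rwa [mul_one]
    | add x z _ _ hx hz => intro u hu; rw [mul_add]; exact add_mem (hx u hu) (hz u hu)
    | neg x _ hx => intro u hu; rw [mul_neg]; exact neg_mem (hx u hu)
    | mul x z _ _ hx hz => intro u hu; rw [← mul_assoc]; exact hz _ (hx u hu)
  simpa using key 1 (algp_le_uu (one_mem _))

lemma raise_part (he : e * e = 1) (f : Pol Λ) :
    raise h e q Zp f ∈ part h (gset h e q Zp Zm) e 1 := by
  classical
  refine ⟨gen_mem h _ _ (Or.inl (Or.inl ⟨f, rfl⟩)), fun l hl => ?_⟩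
  rw [raise, op, SkewMonoidAlgebra.coeff_add, Finsupp.add_apply] at hl
  by_cases h1 : (y h (e • (1, 0)) (io h f * al h q Zp)).coeff l = 0
  · rw [h1, zero_add] at hl
    refine y_homog (S := ∅) ?_ l hl
    simp [he]
  · refine y_homog (S := ∅) ?_ l h1
    simp [he]

lemma lower_part (he : e * e = 1) (f : Pol Λ) :
    lower h e q Zm f ∈ part h (gset h e q Zp Zm) e (-1) := by
  classical
  refine ⟨gen_mem h _ _ (Or.inl (Or.inr ⟨f, rfl⟩)), fun l hl => ?_⟩
  rw [lower, op, SkewMonoidAlgebra.coeff_add, Finsupp.add_apply] at hl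
  by_cases h1 : (y h (e • (-1, 0)) (io h f * be h q Zm)).coeff l = 0
  · rw [h1, zero_add] at hl
    refine y_homog (S := ∅) ?_ l hl
    simp [he]
  · refine y_homog (S := ∅) ?_ l h1
    simp [he]

lemma Dp_part (he : e * e = 1) : Dp h e Zp ∈ part h (gset h e q Zp Zm) e 2 := by
  refine ⟨gen_mem h _ _ (Or.inr (Or.inl rfl)), y_homog (S := ∅) ?_⟩
  have : e * (e + e) = 2 * (e * e) := by ring
  simp [this, he]

lemma Dm_part (he : e * e = 1) : Dm h e Zm ∈ part h (gset h e q Zp Zm) e (-2) := by
  refine ⟨gen_mem h _ _ (Or.inr (Or.inr rfl)), y_homog (S := ∅) ?_⟩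
  have : e * (-e + -e) = -2 * (e * e) := by ring
  simp [this, he]

variable (h e q Zp Zm) in
/-- Sums of symmetric polynomials and elements of degree of sign `s`. -/
def gg (s : ℤ) : AddSubgroup (Diff h) :=
  AddSubgroup.closure (symSet h ∪ {x | ∃ n : ℤ, 0 < n ∧ x ∈ part h (gset h e q Zp Zm) e (s * n)})

lemma sym_gg {s : ℤ} {a : Diff h} (ha : a ∈ symSet h) : a ∈ gg h e q Zp Zm s :=
  AddSubgroup.subset_closure (Or.inl ha)

lemma part_gg {s n : ℤ} (hn : 0 < n) {a : Diff h}
    (ha : a ∈ part h (gset h e q Zp Zm) e (s * n)) : a ∈ gg h e q Zp Zm s :=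
  AddSubgroup.subset_closure (Or.inr ⟨n, hn, ha⟩)

lemma sym_mul_sym {a b : Diff h} (ha : a ∈ symSet h) (hb : b ∈ symSet h) : a * b ∈ symSet h := by
  obtain ⟨p, hp, rfl⟩ := ha
  obtain ⟨r, hr, rfl⟩ := hb
  exact ⟨p * r, by rw [map_mul, hp, hr], by rw [sy_mul]⟩

lemma gg_mul {s : ℤ} {a b : Diff h} (ha : a ∈ gg h e q Zp Zm s) (hb : b ∈ gg h e q Zp Zm s) :
    a * b ∈ gg h e q Zp Zm s := by
  induction ha using AddSubgroup.closure_induction with
  | mem x hx =>
    induction hb using AddSubgroup.closure_induction with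
    | mem z hz =>
      rcases hx with hx | ⟨n, hn, hx⟩ <;> rcases hz with hz | ⟨m, hm, hz⟩
      · exact sym_gg (sym_mul_sym hx hz)
      · obtain ⟨p, hp, rfl⟩ := hx
        refine part_gg hm ?_
        simpa using part_mul (sy_part h _ e p hp) hz
      · obtain ⟨p, hp, rfl⟩ := hz
        refine part_gg hn ?_
        simpa using part_mul hx (sy_part h _ e p hp)
      · refine part_gg (add_pos hn hm) ?_
        rw [mul_add]
        exact part_mul hx hz
    | zero => rw [mul_zero]; exact zero_mem _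
    | add z w _ _ hz hw => rw [mul_add]; exact add_mem hz hw
    | neg z _ hz => rw [mul_neg]; exact neg_mem hz
  | zero => rw [zero_mul]; exact zero_mem _
  | add z w _ _ hz hw => rw [add_mul]; exact add_mem hz hw
  | neg z _ hz => rw [neg_mul]; exact neg_mem hz

lemma one_sym : (1 : Diff h) ∈ symSet h := ⟨1, map_one _, by rw [sy, map_one, y_one]⟩

lemma algp_le_gg (he : e * e = 1) {b : Diff h} (hb : b ∈ algp h e q Zp) :
    b ∈ gg h e q Zp Zm 1 := by
  induction hb using Subring.closure_induction with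
  | mem x hx =>
    rcases hx with hx | ⟨f, rfl⟩ | hx
    · exact sym_gg hx
    · exact part_gg one_pos (by simpa using raise_part he f)
    · rw [Set.mem_singleton_iff] at hx
      subst hx
      exact part_gg two_pos (by simpa using Dp_part he)
  | zero => exact zero_mem _
  | one => exact sym_gg one_sym
  | add x z _ _ hx hz => exact add_mem hx hz
  | neg x _ hx => exact neg_mem hx
  | mul x z _ _ hx hz => exact gg_mul hx hz

lemma algm_le_gg (he : e * e = 1) {b : Diff h} (hb : b ∈ algm h e q Zm) :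
    b ∈ gg h e q Zp Zm (-1) := by
  induction hb using Subring.closure_induction with
  | mem x hx =>
    rcases hx with hx | ⟨f, rfl⟩ | hx
    · exact sym_gg hx
    · exact part_gg one_pos (by simpa using lower_part he f)
    · rw [Set.mem_singleton_iff] at hx
      subst hx
      exact part_gg two_pos (by simpa using Dm_part he)
  | zero => exact zero_mem _
  | one => exact sym_gg one_sym
  | add x z _ _ hx hz => exact add_mem hx hz
  | neg x _ hx => exact neg_mem hx
  | mul x z _ _ hx hz => exact gg_mul hx hz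

variable (h e q Zp Zm) in
/-- Symmetric polynomials plus the ideal. -/
def tt : AddSubgroup (Diff h) where
  carrier := {a | ∃ p : Pol Λ, sw p = p ∧ a - sy h p ∈ idl h (gset h e q Zp Zm) e}
  add_mem' := by
    rintro a b ⟨p, hp, ha⟩ ⟨r, hr, hb⟩
    refine ⟨p + r, by rw [map_add, hp, hr], ?_⟩
    have : a + b - sy h (p + r) = (a - sy h p) + (b - sy h r) := by
      simp only [sy, map_add, y_add]
      abel
    rw [this]
    exact add_mem ha hb
  zero_mem' := ⟨0, map_zero _, by
    have : sy h (0 : Pol Λ) = 0 := by simp [sy, y, SkewMonoidAlgebra.single_zero]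
    rw [this, sub_zero]
    exact zero_mem _⟩
  neg_mem' := by
    rintro a ⟨p, hp, ha⟩
    refine ⟨-p, by rw [map_neg, hp], ?_⟩
    have : -a - sy h (-p) = -(a - sy h p) := by
      simp only [sy, map_neg, y, SkewMonoidAlgebra.single_neg]
      abel
    rw [this]
    exact neg_mem ha

lemma pi0_mul_mem {a b : Diff h} (ha : a ∈ gg h e q Zp Zm (-1)) (hb : b ∈ gg h e q Zp Zm 1) :
    pi0 h e (a * b) ∈ tt h e q Zp Zm := by
  induction ha using AddSubgroup.closure_induction with
  | mem x hx =>
    induction hb using AddSubgroup.closure_induction with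
    | mem z hz =>
      rcases hx with hx | ⟨n, hn, hx⟩ <;> rcases hz with hz | ⟨m, hm, hz⟩
      · obtain ⟨p, hp, hxz⟩ := sym_mul_sym hx hz
        rw [hxz, pi0_self (sy_part h (gset h e q Zp Zm) e p hp)]
        exact ⟨p, hp, by rw [sub_self]; exact zero_mem _⟩
      · obtain ⟨p, hp, rfl⟩ := hx
        have h1 := part_mul (sy_part h _ e p hp) hz
        rw [pi0_zero h1 (by omega)]
        exact zero_mem _
      · obtain ⟨p, hp, rfl⟩ := hz
        have h1 := part_mul hx (sy_part h _ e p hp)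
        rw [pi0_zero h1 (by omega)]
        exact zero_mem _
      · by_cases hnm : n = m
        · subst hnm
          have h1 := part_mul hx hz
          have h2 : (-1 * n + 1 * n : ℤ) = 0 := by ring
          rw [h2] at h1
          rw [pi0_self h1]
          refine ⟨0, map_zero _, ?_⟩
          have : sy h (0 : Pol Λ) = 0 := by simp [sy, y, SkewMonoidAlgebra.single_zero]
          rw [this, sub_zero]
          exact Submodule.subset_span ⟨n, hn, x, by simpa using hx, z, by simpa using hz, rfl⟩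
        · have h1 := part_mul hx hz
          rw [pi0_zero h1 (by omega)]
          exact zero_mem _
    | zero => rw [mul_zero, map_zero]; exact zero_mem _
    | add z w _ _ hz hw => rw [mul_add, map_add]; exact add_mem hz hw
    | neg z _ hz => rw [mul_neg, map_neg]; exact neg_mem hz
  | zero => rw [zero_mul, map_zero]; exact zero_mem _
  | add z w _ _ hz hw => rw [add_mul, map_add]; exact add_mem hz hw
  | neg z _ hz => rw [neg_mul, map_neg]; exact neg_mem hz

/-- Every element of degree zero is a symmetric polynomial modulo the ideal. -/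
theorem degree_zero (hZ : ∀ a : Pol Λ, pe Z a = pe Zm a * pe Zp (a - C ((e : Λ) * h)))
    (he : e * e = 1) {a : Diff h} (ha : a ∈ part h (gset h e q Zp Zm) e 0) :
    ∃ p : Pol Λ, sw p = p ∧ a - sy h p ∈ idl h (gset h e q Zp Zm) e := by
  have h1 : ∀ u ∈ uu h e q Zp Zm, pi0 h e u ∈ tt h e q Zp Zm := by
    intro u hu
    induction hu using AddSubgroup.closure_induction with
    | mem x hx =>
      obtain ⟨a, ha, b, hb, rfl⟩ := hx
      exact pi0_mul_mem (algm_le_gg he ha) (algp_le_gg he hb)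
    | zero => rw [map_zero]; exact zero_mem _
    | add z w _ _ hz hw => rw [map_add]; exact add_mem hz hw
    | neg z _ hz => rw [map_neg]; exact neg_mem hz
  have h2 := h1 a (alg_le_uu hZ ha.1)
  rw [pi0_self ha] at h2
  exact h2

end triangular

end Pool.CB55c57e
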